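import Pool.Agent.TH380.PN.K3Defs

/-! Coefficients: basic lemmas. -/

set_option autoImplicit false

namespace Pool.Agent.TH380.PN

open Pool.Agent.TH396.IN

section
variable {F : Type} [Field F]

theorem co_ext {u v : HB F} (h : ∀ a i j, co u a i j = co v a i j) : u = v := by
  ext a ⟨i, j⟩
  exact h a i j

open Classical in
theorem co_mo (a b : ℝ) (i k : ℤ) (j l : ℕ) :
    co (mo F a i j) b k l = if b = a ∧ k = i ∧ l = j then 1 else 0 := by
  unfold co mo
  by_cases h : b = a
  · subst h
    rw [HahnSeries.coeff_single_same, AddMonoidAlgebra.coeff_single, Finsupp.single_apply]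
    have : ((i, j) = (k, l)) ↔ (b = b ∧ k = i ∧ l = j) := by
      rw [Prod.ext_iff]
      constructor
      · rintro ⟨h1, h2⟩; exact ⟨rfl, h1.symm, h2.symm⟩
      · rintro ⟨_, h1, h2⟩; exact ⟨h1.symm, h2.symm⟩
    simp only [this]
  · rw [HahnSeries.coeff_single_of_ne h, if_neg (fun h' => h h'.1)]
    rfl

open Classical in
theorem co_inc (r : HahnSeries ℝ F) (a : ℝ) (i : ℤ) (j : ℕ) :
    co (inc r) a i j = if i = 0 ∧ j = 0 then r.coeff a else 0 := by
  have h : ((0 : ℤ × ℕ) = (i, j)) ↔ (i = 0 ∧ j = 0) := by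
    rw [Prod.ext_iff]
    simp only [Prod.fst_zero, Prod.snd_zero]
    constructor <;> rintro ⟨h1, h2⟩ <;> exact ⟨h1.symm, h2.symm⟩
  simp [co, inc, AddMonoidAlgebra.singleZeroRingHom, Finsupp.single_apply, h]

theorem co_add (u v : HB F) (a : ℝ) (i : ℤ) (j : ℕ) : co (u + v) a i j = co u a i j + co v a i j := by
  simp [co]

theorem co_sub (u v : HB F) (a : ℝ) (i : ℤ) (j : ℕ) : co (u - v) a i j = co u a i j - co v a i j := by
  simp [co]

theorem inc_single (b : ℝ) (r : F) :
    inc (HahnSeries.single b r) = HahnSeries.single b (AddMonoidAlgebra.single (0 : ℤ × ℕ) r) := by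
  apply HahnSeries.ext
  funext a
  show AddMonoidAlgebra.single (0 : ℤ × ℕ) ((HahnSeries.single b r).coeff a) = _
  by_cases h : a = b
  · subst h
    rw [HahnSeries.coeff_single_same, HahnSeries.coeff_single_same]
  · rw [HahnSeries.coeff_single_of_ne h, HahnSeries.coeff_single_of_ne h]
    simp

theorem co_inc_single_mul (b : ℝ) (r : F) (u : HB F) (a : ℝ) (i : ℤ) (j : ℕ) :
    co (inc (HahnSeries.single b r) * u) a i j = r * co u (a - b) i j := by
  unfold co
  rw [inc_single, HahnSeries.coeff_single_mul, AddMonoidAlgebra.coeff_single_zero_mul]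

theorem co_scl_mul (r : F) (u : HB F) (a : ℝ) (i : ℤ) (j : ℕ) :
    co (scl r * u) a i j = r * co u a i j := by
  have h : (HahnSeries.C r : HahnSeries ℝ F) = HahnSeries.single 0 r := rfl
  unfold scl
  rw [h, co_inc_single_mul, sub_zero]

end

end Pool.Agent.TH380.PN
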