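import Pool.Agent.H932R5.Open
import Pool.Agent.TH15.NagEmpGeneric

/-!
A good configuration over one field of characteristic zero gives goodness of algebraically
independent configurations over every field of characteristic zero.
-/

set_option autoImplicit false

namespace Pool.Agent.TH380.PN

open MvPolynomial Pool.Agent.H932R5

namespace E1

variable {E n : ℕ}

/-- the shift over a field is a specialization of the generic shift over the rational numbers -/
theorem map_gshiftQ {L : Type} [Field L] [CharZero L] (i : Fin n) (P : Fin n → Fin (E + 1) → L)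
    (f : MvPolynomial (Fin (E + 1)) ℚ) :
    map ((aeval (fun q : Fin n × Fin (E + 1) => P q.1 q.2) :
      MvPolynomial (Fin n × Fin (E + 1)) ℚ →ₐ[ℚ] L) :
        MvPolynomial (Fin n × Fin (E + 1)) ℚ →+* L) (gshift ℚ E n i f) =
      shift (P i) (map (algebraMap ℚ L) f) := by
  have h : (map ((aeval (fun q : Fin n × Fin (E + 1) => P q.1 q.2) :
      MvPolynomial (Fin n × Fin (E + 1)) ℚ →ₐ[ℚ] L) :
        MvPolynomial (Fin n × Fin (E + 1)) ℚ →+* L)).comp (gshift ℚ E n i) =
      (shift (P i) : MvPolynomial (Fin (E + 1)) L →+* MvPolynomial (Fin (E + 1)) L).comp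
        (map (algebraMap ℚ L)) := by
    refine MvPolynomial.ringHom_ext (fun c => ?_) fun j => ?_
    · simp [gshift, shift]
    · simp [gshift, shift]
  exact RingHom.congr_fun h f

theorem coeff_shift_sum {F : Type} [Field F] (T : Finset (Fin (E + 1) →₀ ℕ))
    (p : Fin (E + 1) → F) (α : Fin (E + 1) →₀ ℕ) (c : {s // s ∈ T} → F) :
    coeff α (shift p (∑ s : {s // s ∈ T}, monomial s.1 (c s))) =
      ∑ s : {s // s ∈ T}, coeff α (shift p (monomial s.1 1)) * c s := by
  rw [map_sum, coeff_sum]
  refine Finset.sum_congr rfl fun s _ => ?_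
  have h : monomial s.1 (c s) = c s • monomial s.1 (1 : F) := by
    rw [smul_monomial, smul_eq_mul, mul_one]
  rw [h, map_smul, coeff_smul, smul_eq_mul, mul_comm]

theorem coeff_sum_mon {F : Type} [Field F] (T : Finset (Fin (E + 1) →₀ ℕ))
    (c : {s // s ∈ T} → F) (α : Fin (E + 1) →₀ ℕ) :
    coeff α (∑ s : {s // s ∈ T}, monomial s.1 (c s)) =
      if h : α ∈ T then c ⟨α, h⟩ else 0 := by
  classical
  rw [coeff_sum]
  simp only [coeff_monomial]
  split_ifs with h
  · rw [Finset.sum_eq_single (⟨α, h⟩ : {s // s ∈ T})]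
    · rw [if_pos rfl]
    · intro s _ hs
      rw [if_neg]
      intro h'
      exact hs (Subtype.ext h')
    · intro h'
      exact absurd (Finset.mem_univ _) h'
  · refine Finset.sum_eq_zero fun s _ => ?_
    rw [if_neg]
    rintro rfl
    exact h s.2

theorem decomp {F : Type} [Field F] (T : Finset (Fin (E + 1) →₀ ℕ))
    (f : MvPolynomial (Fin (E + 1)) F) (hf : ∀ α, coeff α f ≠ 0 → α ∈ T) :
    f = ∑ s : {s // s ∈ T}, monomial s.1 (coeff s.1 f) := by
  ext α
  rw [coeff_sum_mon T (fun s => coeff s.1 f)]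
  split_ifs with h
  · rfl
  · by_contra hne
    exact h (hf α hne)

end E1

open E1 in
theorem generic_of_config : ∀ {E n : ℕ} {w : Fin n → ℕ} (T : Finset (Fin (E + 1) →₀ ℕ))
    {K : Type} [Field K] [CharZero K] (x : Fin n → Fin (E + 1) → K),
    (∀ f ∈ Z w x, (∀ α, coeff α f ≠ 0 → α ∈ T) → f = 0) →
    ∀ {L : Type} [Field L] [CharZero L] (P : Fin n → Fin (E + 1) → L),
      AlgebraicIndependent ℚ (fun q : Fin n × Fin (E + 1) => P q.1 q.2) →
      ∀ f ∈ Z w P, (∀ α, coeff α f ≠ 0 → α ∈ T) → f = 0 := by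
  intro E n w T K _ _ x hx L _ _ P hP f hfZ hfT
  classical
  -- the rows
  obtain ⟨a, ha⟩ := Pool.Agent.TH15.Nag.exists_rows (K := K) (R := Cnd E w)
    (σ := {s // s ∈ T})
    (fun q s => coeff q.2.1 (shift (x q.1) (monomial s.1 1))) (by
      intro c hc
      have h0 : (∑ s : {s // s ∈ T}, monomial s.1 (c s) : MvPolynomial (Fin (E + 1)) K) = 0 := by
        apply hx
        · rw [mem_Z_iff]
          funext q
          rw [cnd_apply, coeff_shift_sum, hc q]
          rfl
        · intro α hα
          rw [coeff_sum_mon] at hα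
          by_contra h
          exact hα (dif_neg h)
      funext s
      have h1 := coeff_sum_mon T c s.1
      rw [h0, coeff_zero, dif_pos s.2] at h1
      exact h1.symm)
  -- the polynomial minor
  let Pm : Cnd E w → {s // s ∈ T} → MvPolynomial (Fin n × Fin (E + 1)) ℚ := fun q s =>
    coeff q.2.1 (gshift ℚ E n q.1 (monomial s.1 1))
  have heval : ∀ {F : Type} [Field F] [CharZero F] (Q : Fin n → Fin (E + 1) → F) (q : Cnd E w)
      (s : {s // s ∈ T}), aeval (fun q : Fin n × Fin (E + 1) => Q q.1 q.2) (Pm q s) =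
        coeff q.2.1 (shift (Q q.1) (monomial s.1 1)) := by
    intro F _ _ Q q s
    have h1 := map_gshiftQ q.1 Q (monomial s.1 1)
    rw [map_monomial, map_one (algebraMap ℚ F)] at h1
    rw [← h1, coeff_map]
    rfl
  let D : MvPolynomial (Fin n × Fin (E + 1)) ℚ := (Matrix.of fun j m => Pm (a j) m).det
  have hD : ∀ {F : Type} [Field F] [CharZero F] (Q : Fin n → Fin (E + 1) → F),
      aeval (fun q : Fin n × Fin (E + 1) => Q q.1 q.2) D =
        (Matrix.of fun (j m : {s // s ∈ T}) =>
          coeff (a j).2.1 (shift (Q (a j).1) (monomial m.1 1))).det := by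
    intro F _ _ Q
    rw [AlgHom.map_det]
    congr 1
    ext j m
    exact heval Q (a j) m
  have hDne : D ≠ 0 := by
    intro h0
    apply ha
    rw [← hD x, h0, map_zero]
  have hDP : aeval (fun q : Fin n × Fin (E + 1) => P q.1 q.2) D ≠ 0 := by
    intro h0
    exact hDne ((injective_iff_map_eq_zero _).1 hP D h0)
  rw [hD P] at hDP
  have hvec : (fun m : {s // s ∈ T} => coeff m.1 f) = 0 := by
    apply Matrix.eq_zero_of_mulVec_eq_zero hDP
    funext j
    rw [mem_Z_iff] at hfZ
    have h1 := congrFun hfZ (a j)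
    rw [cnd_apply, decomp T f hfT, coeff_shift_sum] at h1
    rw [Matrix.mulVec, dotProduct]
    exact h1
  rw [decomp T f hfT]
  refine Finset.sum_eq_zero fun s _ => ?_
  have h2 := congrFun hvec s
  simp only [Pi.zero_apply] at h2
  rw [h2, monomial_zero]

end Pool.Agent.TH380.PN
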