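import Pool.Agent.H932R5.Homog
import Pool.Agent.TH396.IN.Defs

/-! From `GoodS` to polynomials in `k + 2` variables. -/

set_option autoImplicit false

namespace Pool.Agent.TH380.PN

open MvPolynomial Pool.Agent.H932R5

namespace E2

open Pool.Agent.TH396.IN

/-- the spectator exponent with given coordinates -/
def tosp : (k : ℕ) → (ℕ → ℕ) → Sp k
  | 0, _ => ()
  | k + 1, s => (s 0, tosp k (fun i => s (i + 1)))

theorem tosp_zero : ∀ k : ℕ, tosp k (fun _ => 0) = 0
  | 0 => rfl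
  | k + 1 => by
    change ((0, tosp k (fun _ => 0)) : ℕ × Sp k) = (0, 0)
    rw [tosp_zero k]

theorem tosp_add : ∀ (k : ℕ) (s t : ℕ → ℕ),
    tosp k (fun i => s i + t i) = tosp k s + tosp k t
  | 0, _, _ => rfl
  | k + 1, s, t => by
    change ((s 0 + t 0, tosp k (fun i => s (i + 1) + t (i + 1))) : ℕ × Sp k) =
      (s 0 + t 0, tosp k (fun i => s (i + 1)) + tosp k (fun i => t (i + 1)))
    rw [tosp_add k]

theorem tosp_inj : ∀ (k : ℕ) (s t : ℕ → ℕ), tosp k s = tosp k t → ∀ i < k, s i = t i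
  | 0, _, _, _, _, hi => absurd hi (Nat.not_lt_zero _)
  | k + 1, s, t, h, i, hi => by
    have h1 : ((s 0, tosp k (fun i => s (i + 1))) : ℕ × Sp k) =
      (t 0, tosp k (fun i => t (i + 1))) := h
    rw [Prod.mk.injEq] at h1
    rcases i with _ | i
    · exact h1.1
    · exact tosp_inj k _ _ h1.2 i (by omega)

theorem dgp_tosp : ∀ (k : ℕ) (s : ℕ → ℕ), dgp k (tosp k s) = ∑ i ∈ Finset.range k, s i
  | 0, _ => rfl
  | k + 1, s => by
    change s 0 + dgp k (tosp k (fun i => s (i + 1))) = _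
    rw [dgp_tosp k, Finset.sum_range_succ', add_comm]

/-- the coordinates of an exponent -/
def co {k : ℕ} (s : Fin (k + 2) →₀ ℕ) (i : ℕ) : ℕ := if h : i < k + 2 then s ⟨i, h⟩ else 0

/-- the map on exponents -/
noncomputable def ex (k : ℕ) : (Fin (k + 2) →₀ ℕ) →+ ℤ × (ℕ × Sp k) where
  toFun s := ((co s 0 : ℤ), (co s 1, tosp k (fun i => co s (i + 2))))
  map_zero' := by
    have h : ∀ i, co (0 : Fin (k + 2) →₀ ℕ) i = 0 := by
      intro i
      unfold co
      split_ifs <;> rfl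
    simp only [h]
    rw [tosp_zero]
    rfl
  map_add' s t := by
    have h : ∀ i, co (s + t) i = co s i + co t i := by
      intro i
      unfold co
      split_ifs <;> rfl
    simp only [h]
    rw [tosp_add]
    ext1
    · simp
    · rfl

theorem ex_inj (k : ℕ) : Function.Injective (ex k) := by
  intro s t h
  have h1 : (((co s 0 : ℤ), (co s 1, tosp k (fun i => co s (i + 2)))) : ℤ × (ℕ × Sp k)) =
    ((co t 0 : ℤ), (co t 1, tosp k (fun i => co t (i + 2)))) := h
  rw [Prod.mk.injEq, Prod.mk.injEq] at h1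
  obtain ⟨h1, h2, h3⟩ := h1
  have h4 := tosp_inj k _ _ h3
  have h5 : ∀ i < k + 2, co s i = co t i := by
    intro i hi
    rcases i with _ | _ | i
    · exact_mod_cast h1
    · exact h2
    · exact h4 i (by omega)
  ext ⟨i, hi⟩
  have := h5 i hi
  unfold co at this
  rwa [dif_pos hi, dif_pos hi] at this

theorem deg_ex {k : ℕ} (s : Fin (k + 2) →₀ ℕ) :
    (ex k s).1 + (ex k s).2.1 + dgp k (ex k s).2.2 = ((Finsupp.degree s : ℕ) : ℤ) := by
  have h : Finsupp.degree s = ∑ i ∈ Finset.range (k + 2), co s i := by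
    rw [Finsupp.degree_eq_sum, Finset.sum_range]
    refine Finset.sum_congr rfl fun i _ => ?_
    unfold co
    rw [dif_pos i.2]
  rw [h, Finset.sum_range_succ', Finset.sum_range_succ']
  change ((co s 0 : ℕ) : ℤ) + ((co s 1 : ℕ) : ℤ) +
    (dgp k (tosp k (fun i => co s (i + 2))) : ℕ) = _
  rw [dgp_tosp]
  push_cast
  ring

/-- the ring map -/
noncomputable def Ph (K : Type) [Field K] (k : ℕ) :
    MvPolynomial (Fin (k + 1 + 1)) K →ₐ[K] LP K (ℕ × Sp k) :=
  AddMonoidAlgebra.mapDomainAlgHom K K (ex k)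

theorem Ph_inj (K : Type) [Field K] (k : ℕ) : Function.Injective (Ph K k) :=
  AddMonoidAlgebra.mapDomain_injective (ex_inj k)

theorem Ph_supp {K : Type} [Field K] {k d : ℕ} (f : MvPolynomial (Fin (k + 1 + 1)) K)
    (hf : ∀ α, coeff α f ≠ 0 → Finsupp.degree α ≤ d) :
    ∀ m, (Ph K k f).coeff m ≠ 0 → m ∈ Sx (dgp k) d := by
  classical
  intro m hm
  have h1 : (Ph K k f).coeff = Finsupp.mapDomain (ex k) (AddMonoidAlgebra.coeff f) := rfl
  rw [h1] at hm
  have h2 := Finsupp.mapDomain_support (f := ex k) (s := AddMonoidAlgebra.coeff f)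
    (Finsupp.mem_support_iff.2 hm)
  rw [Finset.mem_image] at h2
  obtain ⟨s, hs, rfl⟩ := h2
  have h3 : coeff s f ≠ 0 := Finsupp.mem_support_iff.1 hs
  have h4 := hf s h3
  have h5 := deg_ex s
  refine ⟨?_, ?_⟩
  · change (0 : ℤ) ≤ ((co s 0 : ℕ) : ℤ)
    positivity
  · rw [h5]
    exact_mod_cast h4

end E2

open E2 in
theorem points_of_good : ∀ (n k : ℕ) (c : ℝ),
  Pool.Agent.TH396.IN.GoodS (Fin n) (Pool.Agent.TH396.IN.dgp k) c →
  ∀ (d : ℕ) (w : Fin n → ℕ), (d : ℝ) * c < ∑ i, (w i : ℝ) →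
    ∃ (K : Type) (_ : Field K) (_ : CharZero K) (x : Fin n → Fin (k + 1 + 1) → K),
      ∀ f ∈ Z w x, (∀ α, coeff α f ≠ 0 → Finsupp.degree α ≤ d) → f = 0 := by
  intro n k c hG d w hw
  obtain ⟨K, hK, hK0, e, he⟩ := hG d
  refine ⟨K, hK, hK0, fun i j => e i (Ph K k (X j)), ?_⟩
  intro f hf hd
  have h1 := he d w le_rfl hw (Ph K k f) (Ph_supp f hd) ?_
  · exact Ph_inj K k (by rw [h1, map_zero])
  · intro i
    have h2 := mem_Z.1 hf i
    have h3 : Ideal.map (Ph K k) (pt (fun j => e i (Ph K k (X j)))) ≤ RingHom.ker (e i) := by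
      unfold pt
      rw [Ideal.map_span, Ideal.span_le]
      rintro _ ⟨_, ⟨j, rfl⟩, rfl⟩
      change _ ∈ RingHom.ker (e i)
      rw [RingHom.mem_ker, map_sub, map_sub, sub_eq_zero]
      have h4 : Ph K k (C (e i (Ph K k (X j)))) = algebraMap K _ (e i (Ph K k (X j))) :=
        (Ph K k).commutes _
      rw [h4]
      exact ((e i).commutes _).symm
    have h5 : Ph K k f ∈ Ideal.map (Ph K k) (pt (fun j => e i (Ph K k (X j))) ^ w i) :=
      Ideal.mem_map_of_mem _ h2
    rw [Ideal.map_pow] at h5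
    exact Ideal.pow_right_mono h3 (w i) h5

end Pool.Agent.TH380.PN
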