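import Pool.Agent.H932R5.Homog

/-! PN-E3: very general points of complex projective space. -/

set_option autoImplicit false

namespace Pool.Agent.TH380.PN

open MvPolynomial Pool.Agent.H932R5

/-- Outside countably many hypersurfaces all coordinates are algebraically independent. -/
private theorem e3_family (σ : Type) [Finite σ] : ∃ F : ℕ → MvPolynomial σ ℂ, (∀ j, F j ≠ 0) ∧
    ∀ x : σ → ℂ, (∀ j, eval x (F j) ≠ 0) → AlgebraicIndependent ℚ x := by
  classical
  have hc : Countable (MvPolynomial σ ℚ) := by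
    rw [← Cardinal.mk_le_aleph0_iff]
    refine MvPolynomial.cardinalMk_le_max.trans ?_
    simp only [max_le_iff]
    exact ⟨⟨Cardinal.mk_le_aleph0, Cardinal.mk_le_aleph0⟩, le_rfl⟩
  have hne : Nonempty {f : MvPolynomial σ ℚ // f ≠ 0} := ⟨⟨1, one_ne_zero⟩⟩
  obtain ⟨g, hg⟩ := exists_surjective_nat {f : MvPolynomial σ ℚ // f ≠ 0}
  refine ⟨fun j => (g j).1.map (algebraMap ℚ ℂ), fun j h0 => (g j).2
    (MvPolynomial.map_injective (algebraMap ℚ ℂ) (algebraMap ℚ ℂ).injective
      (h0.trans (map_zero _).symm)), fun x hx => ?_⟩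
  rw [algebraicIndependent_iff]
  intro p hp
  by_contra hne0
  obtain ⟨j, hj⟩ := hg ⟨p, hne0⟩
  refine hx j ?_
  show eval x ((g j).1.map (algebraMap ℚ ℂ)) = 0
  rw [hj, eval_map]
  exact hp

private theorem e3_ker_le {K : Type} [Field K] {E : ℕ} (P : Fin (E + 1) → K) :
    RingHom.ker (eval P) ≤ pt P := by
  intro f hf
  have h0 : eval P f = 0 := hf
  rw [← pow_one (pt P), mem_pt_pow_iff]
  intro s hs
  have hs0 : s = 0 := by
    have : Finsupp.degree s = 0 := by omega
    exact (Finsupp.degree_eq_zero_iff s).1 this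
  subst hs0
  have h : (constantCoeff : MvPolynomial (Fin (E + 1)) K →+* K).comp
      (shift P : MvPolynomial (Fin (E + 1)) K →+* MvPolynomial (Fin (E + 1)) K) = eval P := by
    refine MvPolynomial.ringHom_ext (fun c => ?_) fun j => ?_
    · simp
    · simp [shift_X]
  have h1 := congrArg (fun φ : MvPolynomial (Fin (E + 1)) K →+* K => φ f) h
  have h2 : constantCoeff (shift P f) = eval P f := h1
  rw [← constantCoeff_eq, h2, h0]

theorem veryGeneral
    (hE1 : ∀ {E n : ℕ} {w : Fin n → ℕ} (T : Finset (Fin (E + 1) →₀ ℕ))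
      {K : Type} [Field K] [CharZero K] (x : Fin n → Fin (E + 1) → K),
      (∀ f ∈ Z w x, (∀ α, coeff α f ≠ 0 → α ∈ T) → f = 0) →
      ∀ {L : Type} [Field L] [CharZero L] (P : Fin n → Fin (E + 1) → L),
        AlgebraicIndependent ℚ (fun q : Fin n × Fin (E + 1) => P q.1 q.2) →
        ∀ f ∈ Z w P, (∀ α, coeff α f ≠ 0 → α ∈ T) → f = 0) :
    ∀ (E r : ℕ) (c : ℝ),
    (∀ (d : ℕ) (w : Fin r → ℕ), (d : ℝ) * c < ∑ i, (w i : ℝ) →
      ∃ (K : Type) (_ : Field K) (_ : CharZero K) (x : Fin r → Fin (E + 1) → K),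
        ∀ f ∈ Z w x, (∀ α, coeff α f ≠ 0 → Finsupp.degree α ≤ d) → f = 0) →
    ∃ F : ℕ → MvPolynomial (Fin r × Fin (E + 1 + 1)) ℂ, (∀ i, F i ≠ 0) ∧
      ∀ P : Fin r → Fin (E + 1 + 1) → ℂ,
        (∀ i, MvPolynomial.eval (fun q : Fin r × Fin (E + 1 + 1) => P q.1 q.2) (F i) ≠ 0) →
        ∀ (m : Fin r → ℕ) (d : ℕ) (f : MvPolynomial (Fin (E + 1 + 1)) ℂ),
          f.IsHomogeneous d → f ≠ 0 →
          (∀ j : Fin r, f ∈ (RingHom.ker (MvPolynomial.eval (P j))) ^ m j) →
          (∑ j, (m j : ℝ)) ≤ d * c := by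
  classical
  intro E r c H
  obtain ⟨F, hF0, hF⟩ := e3_family (Fin r × Fin (E + 1 + 1))
  refine ⟨F, hF0, ?_⟩
  intro P hP m d f hfd hf0 hfm
  by_contra hlt
  push Not at hlt
  obtain ⟨K, iK, iC, x, hx⟩ := H d m hlt
  apply hf0
  refine hE1 (E := E + 1) (n := r) (w := m) ((dg (E + 1) (d + 1)).filter
    fun s => Finsupp.degree s = d) (K := K) (fun i => (Fin.cons 1 (x i) : Fin (E + 1 + 1) → K)) ?_
    P (hF _ hP) f ?_ ?_
  · intro g hg hgT
    have hgd : g.IsHomogeneous d := by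
      intro α hα
      have := (Finset.mem_filter.1 (hgT α hα)).2
      rw [← this]
      rw [Finsupp.degree_eq_weight_one, Pi.one_def]
    refine deh_inj (K := K) (E := E) (d := d) hgd ?_
    refine hx _ ?_ ?_
    · rw [mem_Z] at hg ⊢
      intro i
      have h1 := Ideal.mem_map_of_mem (deh K E) (hg i)
      rw [Ideal.map_pow] at h1
      refine Ideal.pow_right_mono ?_ (m i) h1
      unfold pt
      rw [Ideal.map_span, Ideal.span_le]
      rintro _ ⟨_, ⟨k, rfl⟩, rfl⟩
      show deh K E (X k - C ((Fin.cons 1 (x i) : Fin (E + 1 + 1) → K) k)) ∈ pt (x i)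
      refine Fin.cases ?_ (fun j => ?_) k
      · rw [Fin.cons_zero, map_sub, deh_X0, deh_C, map_one, sub_self]
        exact Ideal.zero_mem _
      · rw [Fin.cons_succ, map_sub, deh_X, deh_C]
        exact Ideal.subset_span ⟨j, rfl⟩
    · intro α hα
      exact mem_mspan.1 (deh_mem (K := K) (E := E) (d := d) hgd) α hα
  · rw [mem_Z]
    intro j
    exact Ideal.pow_right_mono (e3_ker_le (P j)) (m j) (hfm j)
  · intro α hα
    have h1 : Finsupp.degree α = d := by
      by_contra h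
      exact hα (hfd.coeff_eq_zero h)
    rw [Finset.mem_filter, mem_dg]
    exact ⟨by omega, h1⟩

end Pool.Agent.TH380.PN
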