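import Pool.Agent.H932R5.Homog
import Pool.Agent.TH396.IN.Defs

/-! END of N9: statements of the pieces (not imported by anybody). -/

set_option autoImplicit false

namespace Pool.Agent.TH380.PN

open MvPolynomial Pool.Agent.H932R5

/-- E1: a good configuration over one field of characteristic zero gives goodness of
algebraically independent configurations over every field of characteristic zero -/
def S_E1 : Prop := ∀ {E n : ℕ} {w : Fin n → ℕ} (T : Finset (Fin (E + 1) →₀ ℕ))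
  {K : Type} [Field K] [CharZero K] (x : Fin n → Fin (E + 1) → K),
  (∀ f ∈ Z w x, (∀ α, coeff α f ≠ 0 → α ∈ T) → f = 0) →
  ∀ {L : Type} [Field L] [CharZero L] (P : Fin n → Fin (E + 1) → L),
    AlgebraicIndependent ℚ (fun q : Fin n × Fin (E + 1) => P q.1 q.2) →
    ∀ f ∈ Z w P, (∀ α, coeff α f ≠ 0 → α ∈ T) → f = 0

/-- E2: from `GoodS` to polynomials in `k + 2` variables -/
def S_E2 : Prop := ∀ (n k : ℕ) (c : ℝ),
  Pool.Agent.TH396.IN.GoodS (Fin n) (Pool.Agent.TH396.IN.dgp k) c →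
  ∀ (d : ℕ) (w : Fin n → ℕ), (d : ℝ) * c < ∑ i, (w i : ℝ) →
    ∃ (K : Type) (_ : Field K) (_ : CharZero K) (x : Fin n → Fin (k + 1 + 1) → K),
      ∀ f ∈ Z w x, (∀ α, coeff α f ≠ 0 → Finsupp.degree α ≤ d) → f = 0

/-- E3: very general points of projective space of dimension `E + 1` over the complex numbers -/
def S_E3 : Prop := ∀ (E r : ℕ) (c : ℝ),
  (∀ (d : ℕ) (w : Fin r → ℕ), (d : ℝ) * c < ∑ i, (w i : ℝ) →
    ∃ (K : Type) (_ : Field K) (_ : CharZero K) (x : Fin r → Fin (E + 1) → K),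
      ∀ f ∈ Z w x, (∀ α, coeff α f ≠ 0 → Finsupp.degree α ≤ d) → f = 0) →
  ∃ F : ℕ → MvPolynomial (Fin r × Fin (E + 1 + 1)) ℂ, (∀ i, F i ≠ 0) ∧
    ∀ P : Fin r → Fin (E + 1 + 1) → ℂ,
      (∀ i, MvPolynomial.eval (fun q : Fin r × Fin (E + 1 + 1) => P q.1 q.2) (F i) ≠ 0) →
      ∀ (m : Fin r → ℕ) (d : ℕ) (f : MvPolynomial (Fin (E + 1 + 1)) ℂ),
        f.IsHomogeneous d → f ≠ 0 →
        (∀ j : Fin r, f ∈ (RingHom.ker (MvPolynomial.eval (P j))) ^ m j) →
        (∑ j, (m j : ℝ)) ≤ d * c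

end Pool.Agent.TH380.PN
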