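import Pool.Agent.TH380.PN.K3Defs

/-! Expansion in powers of the cubic. -/

set_option autoImplicit false

namespace Pool.Agent.TH380.PN

namespace Ex

open Polynomial

variable {F : Type} [Field F]

theorem Wt_zero (D : ℝ) : Wt (F := F) D 0 := by
  intro k i h
  simp at h

theorem Wt_add {D : ℝ} {P Q : Polynomial (Polynomial (HahnSeries ℝ F))} (hP : Wt D P)
    (hQ : Wt D Q) : Wt D (P + Q) := by
  intro k i h
  rw [coeff_add, coeff_add] at h
  by_cases h1 : (P.coeff k).coeff i = 0
  · refine hQ k i ?_
    intro h2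
    rw [h1, h2, add_zero] at h
    exact h rfl
  · exact hP k i h1

theorem Wt_sub {D : ℝ} {P Q : Polynomial (Polynomial (HahnSeries ℝ F))} (hP : Wt D P)
    (hQ : Wt D Q) : Wt D (P - Q) := by
  intro k i h
  rw [coeff_sub, coeff_sub] at h
  by_cases h1 : (P.coeff k).coeff i = 0
  · refine hQ k i ?_
    intro h2
    rw [h1, h2, sub_zero] at h
    exact h rfl
  · exact hP k i h1

theorem Wt_mul {D E : ℝ} {P Q : Polynomial (Polynomial (HahnSeries ℝ F))} (hP : Wt D P)
    (hQ : Wt E Q) : Wt (D + E) (P * Q) := by
  intro k i h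
  rw [coeff_mul, finsetSum_coeff] at h
  obtain ⟨⟨a, b⟩, hab, h1⟩ := Finset.exists_ne_zero_of_sum_ne_zero h
  rw [coeff_mul] at h1
  obtain ⟨⟨u, v⟩, huv, h2⟩ := Finset.exists_ne_zero_of_sum_ne_zero h1
  rw [Finset.HasAntidiagonal.mem_antidiagonal] at hab huv
  have h3 := hP a u (left_ne_zero_of_mul h2)
  have h4 := hQ b v (right_ne_zero_of_mul h2)
  have e1 : ((a : ℝ) + b) = k := by exact_mod_cast hab
  have e2 : ((u : ℝ) + v) = i := by exact_mod_cast huv
  rw [← e1, ← e2]
  linarith

theorem hh_eq : hh F = X ^ 3 - C 2 * X ^ 2 + X - C (X ^ 2 + C (HahnSeries.single 1 1)) := by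
  unfold hh
  have : (C (2 : Polynomial (HahnSeries ℝ F))) = 2 := map_ofNat C 2
  rw [this]
  ring

theorem hh_coeff (k : ℕ) : (hh F).coeff k = if k = 0 then -(X ^ 2 + C (HahnSeries.single 1 1))
    else if k = 1 then 1 else if k = 2 then -2 else if k = 3 then 1 else 0 := by
  rw [hh_eq, coeff_sub, coeff_add, coeff_sub, coeff_X_pow, coeff_C_mul, coeff_X_pow, coeff_X,
    coeff_C]
  rcases k with _ | _ | _ | _ | k
  · simp
  · simp
  · simp
  · simp
  · simp

theorem hh_three : (hh F).coeff 3 = 1 := by
  rw [hh_coeff]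
  simp

theorem hh_big {k : ℕ} (hk : 3 < k) : (hh F).coeff k = 0 := by
  rw [hh_coeff, if_neg (by omega), if_neg (by omega), if_neg (by omega), if_neg (by omega)]

theorem Wt_hh : Wt 3 (hh F) := by
  intro k i h
  rw [hh_coeff] at h
  rcases k with _ | _ | _ | _ | k
  · simp only [if_true, coeff_neg, coeff_add, coeff_X_pow, coeff_C] at h
    have hi : i ≤ 2 := by
      by_contra hc
      apply h
      rw [if_neg (by omega), if_neg (by omega)]
      simp
    have : (i : ℝ) ≤ 2 := by exact_mod_cast hi
    push_cast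
    linarith
  · have hi : i = 0 := by
      by_contra hc
      apply h
      simp [coeff_one, hc]
    subst hi
    norm_num
  · have hi : i = 0 := by
      by_contra hc
      apply h
      have e2 : (-2 : Polynomial (HahnSeries ℝ F)) = C (-2) := by
        rw [C_neg, map_ofNat C 2]
      simp only [Nat.zero_add, Nat.reduceAdd, OfNat.ofNat_ne_zero, if_false,
        OfNat.ofNat_ne_one, if_true]
      rw [e2, coeff_C, if_neg hc]
    subst hi
    norm_num
  · have hi : i = 0 := by
      by_contra hc
      apply h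
      simp [coeff_one, hc]
    subst hi
    norm_num
  · exfalso
    apply h
    simp

/-- division by the cubic -/
theorem div (n : ℕ) : ∀ (D : ℝ) (P : Polynomial (Polynomial (HahnSeries ℝ F))),
    (∀ k, n ≤ k → P.coeff k = 0) → Wt D P →
    ∃ q r : Polynomial (Polynomial (HahnSeries ℝ F)), P = q * hh F + r ∧ Wt (D - 3) q ∧ Wt D r ∧
      (∀ k, 3 ≤ k → r.coeff k = 0) ∧ ∀ k, n ≤ k + 3 → q.coeff k = 0 := by
  induction n with
  | zero =>
    intro D P hP hD
    refine ⟨0, P, by simp, Wt_zero _, hD, fun k _ => hP k (Nat.zero_le _), fun k _ => by simp⟩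
  | succ n ih =>
    intro D P hP hD
    by_cases hn : n < 3
    · exact ⟨0, P, by simp, Wt_zero _, hD, fun k hk => hP k (by omega), fun k _ => by simp⟩
    · push Not at hn
      set c0 := P.coeff n with hc0
      set M : Polynomial (Polynomial (HahnSeries ℝ F)) := C c0 * X ^ (n - 3) with hM
      have hMc : ∀ k, M.coeff k = if k = n - 3 then c0 else 0 := by
        intro k
        rw [hM, coeff_C_mul, coeff_X_pow]
        split_ifs <;> simp
      have hMW : Wt (D - 3) M := by
        intro k i h
        rw [hMc] at h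
        by_cases hk : k = n - 3
        · rw [if_pos hk] at h
          have h1 := hD n i h
          have h2 : (k : ℝ) = (n : ℝ) - 3 := by
            rw [hk, Nat.cast_sub hn]
            norm_num
          rw [h2]
          linarith
        · rw [if_neg hk] at h
          simp at h
      have hMhW : Wt D (M * hh F) := by
        have := Wt_mul hMW (Wt_hh (F := F))
        rwa [sub_add_cancel] at this
      have hMh : ∀ k, (M * hh F).coeff (k + (n - 3)) = c0 * (hh F).coeff k := by
        intro k
        rw [hM, mul_assoc, coeff_C_mul, coeff_X_pow_mul]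
      have h1 : ∀ k, n ≤ k → (P - M * hh F).coeff k = 0 := by
        intro k hk
        obtain ⟨m, rfl⟩ : ∃ m, k = m + (n - 3) := ⟨k - (n - 3), by omega⟩
        rw [coeff_sub, hMh]
        by_cases hm : m = 3
        · subst hm
          have e : 3 + (n - 3) = n := by omega
          rw [e, hh_three, mul_one, ← hc0, sub_self]
        · rw [hh_big (by omega), mul_zero, sub_zero]
          exact hP _ (by omega)
      obtain ⟨q, r, e1, e2, e3, e4, e5⟩ := ih D (P - M * hh F) h1 (Wt_sub hD hMhW)
      refine ⟨q + M, r, ?_, Wt_add e2 hMW, e3, e4, ?_⟩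
      · have e6 : P = (P - M * hh F) + M * hh F := (sub_add_cancel P (M * hh F)).symm
        have e7 : P = (q * hh F + r) + M * hh F := by
          rw [← e1]
          exact e6
        have e8 : (q * hh F + r) + M * hh F = (q + M) * hh F + r := by
          rw [add_mul, add_right_comm]
        exact e7.trans e8
      · intro k hk
        rw [coeff_add, e5 k (by omega), hMc, if_neg (by omega), add_zero]

theorem main (n : ℕ) : ∀ (m : ℕ), m ≤ n → ∀ (D : ℝ)
    (P : Polynomial (Polynomial (HahnSeries ℝ F))),
    (∀ k, m ≤ k → P.coeff k = 0) → Wt D P →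
    ∃ (N : ℕ) (g : ℕ → Polynomial (Polynomial (HahnSeries ℝ F))),
      (∀ j : ℕ, Wt (D - 3 * j) (g j) ∧ ∀ k, 3 ≤ k → (g j).coeff k = 0) ∧
      P = ∑ j ∈ Finset.range N, g j * hh F ^ j := by
  induction n with
  | zero =>
    intro m hm D P hP hD
    have hP0 : P = 0 := by
      ext1 k
      rw [hP k (by omega), coeff_zero]
    exact ⟨0, fun _ => 0, fun j => ⟨Wt_zero _, fun k _ => by simp⟩, by simp [hP0]⟩
  | succ n ih =>
    intro m hm D P hP hD
    obtain ⟨q, r, e1, e2, e3, e4, e5⟩ := div m D P hP hD
    obtain ⟨N, g, hg, hq⟩ := ih (m - 3) (by omega) (D - 3) q (fun k hk => e5 k (by omega)) e2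
    refine ⟨N + 1, fun j => if j = 0 then r else g (j - 1), ?_, ?_⟩
    · intro j
      rcases j with _ | j
      · simp only [if_true]
        refine ⟨?_, e4⟩
        simpa using e3
      · obtain ⟨h1, h2⟩ := hg j
        simp only [Nat.add_eq_zero_iff, one_ne_zero, and_false, if_false, Nat.add_sub_cancel]
        refine ⟨?_, h2⟩
        have : D - 3 * ((j + 1 : ℕ) : ℝ) = D - 3 - 3 * j := by push_cast; ring
        rw [this]
        exact h1
    · rw [Finset.sum_range_succ']
      simp only [Nat.add_eq_zero_iff, one_ne_zero, and_false, if_false, Nat.add_sub_cancel,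
        if_true, pow_zero, mul_one]
      rw [e1]
      congr 1
      rw [hq, Finset.sum_mul]
      refine Finset.sum_congr rfl fun j _ => ?_
      rw [pow_succ, mul_assoc]

end Ex

theorem expansion : S_exp := by
  intro F _ D P hD
  exact Ex.main (P.natDegree + 1) (P.natDegree + 1) le_rfl D P
    (fun k hk => Polynomial.coeff_eq_zero_of_natDegree_lt (by omega)) hD

end Pool.Agent.TH380.PN
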