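import Pool.Agent.TH380.PN.HMap

/-! K3-2: the face homomorphisms. -/

set_option autoImplicit false

namespace Pool.Agent.TH380.PN.Face

open Pool.Agent.TH380.PN

/-- Hahn series with coefficients in two Laurent variables -/
abbrev HR (F : Type) [Field F] : Type := HahnSeries ℝ (AddMonoidAlgebra F (ℤ × ℤ))

variable {F : Type} [Field F]

/-- the coefficient -/
noncomputable def cf (x : HR F) (a : ℝ) (i j : ℤ) : F := (x.coeff a).coeff (i, j)

/-- the cone condition -/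
def InRo (τ s : ℝ) (u : HR F) : Prop :=
  ∀ (a : ℝ) (i j : ℤ), cf u a i j ≠ 0 → 0 ≤ j ∧ s * j + τ * i ≤ a ∧ s * j - (1 - τ) * i ≤ a

theorem cf_one (a : ℝ) (i j : ℤ) :
    cf (1 : HR F) a i j = if a = 0 ∧ i = 0 ∧ j = 0 then 1 else 0 := by
  classical
  unfold cf
  rw [HahnSeries.coeff_one]
  by_cases h : a = 0
  · rw [if_pos h, AddMonoidAlgebra.one_def, AddMonoidAlgebra.coeff_single, Finsupp.single_apply]
    congr 1
    simp only [Prod.ext_iff, Prod.fst_zero, Prod.snd_zero, h, true_and, eq_comm]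
  · rw [if_neg h, if_neg (fun h1 => h h1.1)]
    rfl

theorem cf_zero (a : ℝ) (i j : ℤ) : cf (0 : HR F) a i j = 0 := rfl

theorem cf_add (u v : HR F) (a : ℝ) (i j : ℤ) : cf (u + v) a i j = cf u a i j + cf v a i j := rfl

theorem cf_neg (u : HR F) (a : ℝ) (i j : ℤ) : cf (-u) a i j = -cf u a i j := rfl

/-- the index set -/
noncomputable def idx (u v : HR F) (a : ℝ) : Finset ((_ : ℝ × ℝ) × (ℤ × ℤ)) :=
  (Finset.antidiagonal u.isPWO_support v.isPWO_support a).sigma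
    fun p => (u.coeff p.1).coeff.support

theorem mem_idx (u v : HR F) (a : ℝ) (x : (_ : ℝ × ℝ) × (ℤ × ℤ)) :
    x ∈ idx u v a ↔ u.coeff x.1.1 ≠ 0 ∧ v.coeff x.1.2 ≠ 0 ∧ x.1.1 + x.1.2 = a ∧
      cf u x.1.1 x.2.1 x.2.2 ≠ 0 := by
  unfold idx cf
  rw [Finset.mem_sigma, Finset.mem_antidiagonal, Finsupp.mem_support_iff]
  simp only [HahnSeries.mem_support, and_assoc]

theorem cf_mul (u v : HR F) (a : ℝ) (i j : ℤ) :
    cf (u * v) a i j = ∑ x ∈ idx u v a,
      cf u x.1.1 x.2.1 x.2.2 * cf v x.1.2 (i - x.2.1) (j - x.2.2) := by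
  unfold idx
  rw [Finset.sum_sigma]
  unfold cf
  rw [HahnSeries.coeff_mul, AddMonoidAlgebra.coeff_sum, Finsupp.finsetSum_apply]
  refine Finset.sum_congr rfl fun p _ => ?_
  rw [AddMonoidAlgebra.coeff_mul_apply_left, Finsupp.sum]
  refine Finset.sum_congr rfl fun m _ => ?_
  congr 2
  ext <;> simp <;> ring

theorem coeff_ne_zero {u : HR F} {a : ℝ} {i j : ℤ} (h : cf u a i j ≠ 0) : u.coeff a ≠ 0 := by
  intro h1
  apply h
  unfold cf
  rw [h1]
  rfl

theorem exists_of_cf_mul {u v : HR F} {a : ℝ} {i j : ℤ} (h : cf (u * v) a i j ≠ 0) :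
    ∃ (a1 a2 : ℝ) (i1 i2 j1 j2 : ℤ), a1 + a2 = a ∧ i1 + i2 = i ∧ j1 + j2 = j ∧
      cf u a1 i1 j1 ≠ 0 ∧ cf v a2 i2 j2 ≠ 0 := by
  rw [cf_mul] at h
  obtain ⟨x, hx, h1⟩ := Finset.exists_ne_zero_of_sum_ne_zero h
  rw [mem_idx] at hx
  exact ⟨x.1.1, x.1.2, x.2.1, i - x.2.1, x.2.2, j - x.2.2, hx.2.2.1, by ring, by ring,
    left_ne_zero_of_mul h1, right_ne_zero_of_mul h1⟩

/-- the coefficients of a product on a face -/
theorem cf_mul_face (u v : HR F) (al : ℝ) (k : ℤ) (hk : k ≠ 0)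
    (h : ∀ (a1 a2 : ℝ) (i1 i2 j1 j2 : ℤ) (n : ℕ), cf u a1 i1 j1 ≠ 0 → cf v a2 i2 j2 ≠ 0 →
      a1 + a2 = al * n → i1 + i2 = k * n → j1 + j2 = 0 →
      ∃ p q : ℕ, p + q = n ∧ a1 = al * p ∧ i1 = k * p ∧ j1 = 0 ∧ a2 = al * q) (n : ℕ) :
    cf (u * v) (al * n) (k * n) 0 =
      ∑ p ∈ Finset.HasAntidiagonal.antidiagonal n, cf u (al * p.1) (k * p.1) 0 * cf v (al * p.2) (k * p.2) 0 := by
  rw [cf_mul]
  symm
  refine Finset.sum_bij_ne_zero
    (fun (p : ℕ × ℕ) _ _ => (⟨(al * p.1, al * p.2), (k * p.1, 0)⟩ : (_ : ℝ × ℝ) × (ℤ × ℤ)))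
    ?_ ?_ ?_ ?_
  · rintro ⟨p, q⟩ hpq h1
    rw [mem_idx]
    have e1 : cf u (al * p) (k * p) 0 ≠ 0 := left_ne_zero_of_mul h1
    have e2 : cf v (al * q) (k * q) 0 ≠ 0 := right_ne_zero_of_mul h1
    refine ⟨coeff_ne_zero e1, coeff_ne_zero e2, ?_, e1⟩
    rw [Finset.HasAntidiagonal.mem_antidiagonal] at hpq
    rw [← hpq]
    push_cast
    ring
  · rintro ⟨p, q⟩ hpq _ ⟨p', q'⟩ hpq' _ he
    rw [Finset.HasAntidiagonal.mem_antidiagonal] at hpq hpq'
    simp only [Sigma.mk.injEq, Prod.mk.injEq, heq_eq_eq, and_true] at he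
    have h2 : (p : ℤ) = p' := mul_left_cancel₀ hk he.2
    have h3 : p = p' := by exact_mod_cast h2
    simp only at hpq hpq'
    rw [Prod.mk.injEq]
    omega
  · rintro ⟨⟨a1, a2⟩, ⟨i1, j1⟩⟩ hx h1
    rw [mem_idx] at hx
    obtain ⟨-, -, h2, h3⟩ := hx
    simp only at h1 h2 h3
    obtain ⟨p, q, e0, e1, e2, e3, e4⟩ := h a1 a2 i1 (k * n - i1) j1 (0 - j1) n h3
      (right_ne_zero_of_mul h1) h2 (by ring) (by ring)
    subst e1 e2 e3 e4
    refine ⟨(p, q), Finset.HasAntidiagonal.mem_antidiagonal.2 e0, ?_, rfl⟩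
    have e5 : k * (n : ℤ) - k * p = k * q := by
      rw [← e0]
      push_cast
      ring
    rw [e5] at h1
    simpa using h1
  · rintro ⟨p, q⟩ hpq _
    rw [Finset.HasAntidiagonal.mem_antidiagonal] at hpq
    have e5 : k * (n : ℤ) - k * p = k * q := by
      rw [← hpq]
      push_cast
      ring
    simp only [sub_zero, e5]

/-- the subring of the series with support in the cone -/
noncomputable def RR (F : Type) [Field F] (τ s : ℝ) : Subring (HR F) where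
  carrier := {u | InRo τ s u}
  zero_mem' := fun a i j h => absurd (cf_zero a i j) h
  one_mem' := by
    intro a i j h
    rw [cf_one] at h
    have h1 : a = 0 ∧ i = 0 ∧ j = 0 := by
      by_contra hc
      exact h (if_neg hc)
    obtain ⟨rfl, rfl, rfl⟩ := h1
    simp
  add_mem' := by
    intro u v hu hv a i j h
    rw [cf_add] at h
    by_cases h1 : cf u a i j = 0
    · exact hv a i j (fun h2 => h (by rw [h1, h2, add_zero]))
    · exact hu a i j h1
  neg_mem' := by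
    intro u hu a i j h
    rw [cf_neg] at h
    exact hu a i j (fun h1 => h (by rw [h1, neg_zero]))
  mul_mem' := by
    intro u v hu hv a i j h
    obtain ⟨a1, a2, i1, i2, j1, j2, rfl, rfl, rfl, h1, h2⟩ := exists_of_cf_mul h
    obtain ⟨p1, p2, p3⟩ := hu _ _ _ h1
    obtain ⟨q1, q2, q3⟩ := hv _ _ _ h2
    push_cast
    refine ⟨by omega, by linarith, by linarith⟩

/-- the face homomorphisms -/
theorem exists_hom (τ s al : ℝ) (k : ℤ) (hk : k ≠ 0)
    (h : ∀ (a1 a2 : ℝ) (i1 i2 j1 j2 : ℤ) (n : ℕ),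
      (0 ≤ j1 ∧ s * j1 + τ * i1 ≤ a1 ∧ s * j1 - (1 - τ) * i1 ≤ a1) →
      (0 ≤ j2 ∧ s * j2 + τ * i2 ≤ a2 ∧ s * j2 - (1 - τ) * i2 ≤ a2) →
      a1 + a2 = al * n → i1 + i2 = k * n → j1 + j2 = 0 →
      ∃ p q : ℕ, p + q = n ∧ a1 = al * p ∧ i1 = k * p ∧ j1 = 0 ∧ a2 = al * q) :
    ∃ φ : RR F τ s →+* PowerSeries F,
      ∀ u : RR F τ s, ∀ n : ℕ, PowerSeries.coeff n (φ u) = cf (u : HR F) (al * n) (k * n) 0 := by
  refine ⟨{ toFun := fun u => PowerSeries.mk fun n => cf (u : HR F) (al * n) (k * n) 0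
            map_one' := ?_, map_mul' := ?_, map_zero' := ?_, map_add' := ?_ }, ?_⟩
  · ext n
    rw [PowerSeries.coeff_mk, PowerSeries.coeff_one, Subring.coe_one, cf_one]
    by_cases hn : n = 0
    · subst hn
      simp
    · have h1 : ¬ (al * (n : ℝ) = 0 ∧ k * (n : ℤ) = 0 ∧ (0 : ℤ) = 0) := by
        rintro ⟨_, h2, _⟩
        rcases mul_eq_zero.1 h2 with h3 | h3
        · exact hk h3
        · exact hn (by exact_mod_cast h3)
      rw [if_neg h1, if_neg hn]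
  · intro u v
    ext n
    rw [PowerSeries.coeff_mul, PowerSeries.coeff_mk, Subring.coe_mul,
      cf_mul_face (u : HR F) (v : HR F) al k hk
        (fun a1 a2 i1 i2 j1 j2 n h1 h2 => h a1 a2 i1 i2 j1 j2 n (u.2 _ _ _ h1) (v.2 _ _ _ h2)) n]
    simp only [PowerSeries.coeff_mk]
  · ext n
    rw [PowerSeries.coeff_mk]
    simp [cf_zero]
  · intro u v
    ext n
    rw [map_add, PowerSeries.coeff_mk, PowerSeries.coeff_mk, PowerSeries.coeff_mk,
      Subring.coe_add, cf_add]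
  · intro u n
    exact PowerSeries.coeff_mk n (fun n : ℕ => cf (u : HR F) (al * n) (k * n) 0)

end Pool.Agent.TH380.PN.Face

namespace Pool.Agent.TH380.PN

open Pool.Agent.TH396.IN

/-- the faces over `ℤ × ℤ` -/
theorem exists_face_old (F : Type) [Field F] (τ s : ℝ) (hτ0 : 0 < τ) (hτ1 : τ < 1) (hs : 0 < s) :
    ∃ (φ ψ : Face.RR F τ s →+* PowerSeries F),
      (∀ u : Face.RR F τ s, ∀ n : ℕ,
        PowerSeries.coeff n (φ u) = Face.cf (u : Face.HR F) (τ * n) n 0) ∧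
      (∀ u : Face.RR F τ s, ∀ n : ℕ,
        PowerSeries.coeff n (ψ u) = Face.cf (u : Face.HR F) ((1 - τ) * n) (-n) 0) := by
  obtain ⟨φ, hφ⟩ := Face.exists_hom (F := F) τ s τ 1 one_ne_zero (by
    intro a1 a2 i1 i2 j1 j2 n ⟨h1, h2, h3⟩ ⟨h4, h5, h6⟩ h7 h8 h9
    have hj1 : j1 = 0 := by omega
    have hj2 : j2 = 0 := by omega
    subst hj1 hj2
    rw [one_mul] at h8
    have h8' : (i1 : ℝ) + i2 = n := by exact_mod_cast h8
    simp only [Int.cast_zero, mul_zero, zero_add, zero_sub] at h2 h3 h5 h6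
    have e : τ * (i1 : ℝ) + τ * i2 = τ * n := by rw [← h8']; ring
    have e1 : a1 = τ * i1 := by linarith
    have e2 : a2 = τ * i2 := by linarith
    have p1 : (0 : ℝ) ≤ i1 := by linarith
    have p2 : (0 : ℝ) ≤ i2 := by linarith
    have p1' : 0 ≤ i1 := by exact_mod_cast p1
    have p2' : 0 ≤ i2 := by exact_mod_cast p2
    obtain ⟨p, rfl⟩ := Int.eq_ofNat_of_zero_le p1'
    obtain ⟨q, rfl⟩ := Int.eq_ofNat_of_zero_le p2'
    refine ⟨p, q, by exact_mod_cast h8, ?_, by simp, rfl, ?_⟩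
    · rw [e1]; simp
    · rw [e2]; simp)
  obtain ⟨ψ, hψ⟩ := Face.exists_hom (F := F) τ s (1 - τ) (-1) (by norm_num) (by
    intro a1 a2 i1 i2 j1 j2 n ⟨h1, h2, h3⟩ ⟨h4, h5, h6⟩ h7 h8 h9
    have hj1 : j1 = 0 := by omega
    have hj2 : j2 = 0 := by omega
    subst hj1 hj2
    rw [neg_one_mul] at h8
    have h8' : (i1 : ℝ) + i2 = -n := by exact_mod_cast h8
    simp only [Int.cast_zero, mul_zero, zero_add, zero_sub] at h2 h3 h5 h6
    have e : (1 - τ) * (i1 : ℝ) + (1 - τ) * i2 = -((1 - τ) * n) := by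
      rw [← mul_add, h8']; ring
    have e1 : a1 = -((1 - τ) * i1) := by linarith
    have e2 : a2 = -((1 - τ) * i2) := by linarith
    have p1 : (i1 : ℝ) ≤ 0 := by linarith
    have p2 : (i2 : ℝ) ≤ 0 := by linarith
    have p1' : 0 ≤ -i1 := by
      have : i1 ≤ 0 := by exact_mod_cast p1
      omega
    have p2' : 0 ≤ -i2 := by
      have : i2 ≤ 0 := by exact_mod_cast p2
      omega
    obtain ⟨p, hp⟩ := Int.eq_ofNat_of_zero_le p1'
    obtain ⟨q, hq⟩ := Int.eq_ofNat_of_zero_le p2'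
    have hp' : i1 = -(p : ℤ) := by omega
    have hq' : i2 = -(q : ℤ) := by omega
    subst hp' hq'
    refine ⟨p, q, by omega, ?_, by simp, rfl, ?_⟩
    · rw [e1]; push_cast; ring
    · rw [e2]; push_cast; ring)
  refine ⟨φ, ψ, fun u n => ?_, fun u n => ?_⟩
  · rw [hφ, one_mul]
  · rw [hψ, neg_one_mul]

/-- the inclusion of the exponents -/
def nz : ℤ × ℕ →+ ℤ × ℤ where
  toFun m := (m.1, (m.2 : ℤ))
  map_zero' := rfl
  map_add' m m' := by ext <;> simp

theorem nz_injective : Function.Injective nz := by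
  rintro ⟨a, b⟩ ⟨a', b'⟩ h
  simp only [nz, AddMonoidHom.coe_mk, ZeroHom.coe_mk, Prod.mk.injEq, Nat.cast_inj] at h
  rw [Prod.mk.injEq]
  exact h

/-- the embedding of the series -/
noncomputable def lam (F : Type) [Field F] : HB F →+* Face.HR F :=
  hmap (AddMonoidAlgebra.mapDomainRingHom F nz)

theorem cf_lam {F : Type} [Field F] (u : HB F) (a : ℝ) (i : ℤ) (j : ℕ) :
    Face.cf (lam F u) a i j = co u a i j := by
  show (AddMonoidAlgebra.mapDomain nz (u.coeff a)).coeff (nz (i, j)) = _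
  rw [AddMonoidAlgebra.coeff_mapDomain, Finsupp.mapDomain_apply nz_injective]
  rfl

theorem cf_lam_neg {F : Type} [Field F] (u : HB F) (a : ℝ) (i : ℤ) {j : ℤ} (hj : j < 0) :
    Face.cf (lam F u) a i j = 0 := by
  show (AddMonoidAlgebra.mapDomain nz (u.coeff a)).coeff (i, j) = 0
  rw [AddMonoidAlgebra.coeff_mapDomain, Finsupp.mapDomain_notin_range]
  rintro ⟨⟨a', b'⟩, h⟩
  simp only [nz, AddMonoidHom.coe_mk, ZeroHom.coe_mk, Prod.mk.injEq] at h
  omega

theorem inRo_lam {F : Type} [Field F] (τ s : ℝ) (u : HB F) :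
    Face.InRo τ s (lam F u) ↔ InR τ s u := by
  constructor
  · intro h a i j hij
    rw [← cf_lam] at hij
    have := (h a i j hij).2
    simpa using this
  · intro h a i j hij
    by_cases hj : j < 0
    · exact absurd (cf_lam_neg u a i hj) hij
    · obtain ⟨l, rfl⟩ := Int.eq_ofNat_of_zero_le (not_lt.1 hj)
      rw [cf_lam] at hij
      refine ⟨by omega, ?_⟩
      have := h a i l hij
      simpa using this

/-- K3-2 -/
theorem exists_face : S_face := by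
  intro F _ τ s hτ0 hτ1 hs
  obtain ⟨φ, ψ, hφ, hψ⟩ := exists_face_old F τ s hτ0 hτ1 hs
  let R : Subring (HB F) := (Face.RR F τ s).comap (lam F)
  have hR : ∀ u, u ∈ R ↔ InR τ s u := fun u => inRo_lam τ s u
  let ρ : R →+* Face.RR F τ s := (lam F).restrict R (Face.RR F τ s) (fun u hu => hu)
  have hρ : ∀ u : R, ((ρ u : Face.RR F τ s) : Face.HR F) = lam F (u : HB F) := fun u => rfl
  refine ⟨R, φ.comp ρ, ψ.comp ρ, hR, fun u n => ?_, fun u n => ?_⟩
  · rw [RingHom.comp_apply, hφ, hρ]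
    exact cf_lam (u : HB F) (τ * n) n 0
  · rw [RingHom.comp_apply, hψ, hρ]
    exact cf_lam (u : HB F) ((1 - τ) * n) (-n) 0

end Pool.Agent.TH380.PN
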