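import Pool.Agent.TH380.PN.K3Defs

/-! A ring homomorphism of the coefficients of Hahn series. -/

set_option autoImplicit false

namespace Pool.Agent.TH380.PN

/-- a ring homomorphism of the coefficients -/
noncomputable def hmap {A B : Type} [CommRing A] [CommRing B] (φ : A →+* B) :
    HahnSeries ℝ A →+* HahnSeries ℝ B where
  toFun x := x.map φ
  map_one' := by
    ext a
    simp only [HahnSeries.map_coeff, HahnSeries.coeff_one]
    split_ifs <;> simp
  map_mul' x y := HahnSeries.map_mul (φ : A →ₙ+* B)
  map_zero' := by ext; simp
  map_add' x y := by ext; simp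

theorem hmap_coeff {A B : Type} [CommRing A] [CommRing B] (φ : A →+* B) (x : HahnSeries ℝ A)
    (a : ℝ) : (hmap φ x).coeff a = φ (x.coeff a) := rfl

end Pool.Agent.TH380.PN
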