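import Pool.Agent.TH396.IN.Defs

/-! The nodal cubic `z (z - 1) ^ 2 = x ^ 2 + t` on a tube in Hahn series: definitions and the
statements of the pieces of KEY3.

`B F = LP F ℕ` : Laurent polynomials in `X`, polynomials in `Y`; `HB F = HahnSeries ℝ (B F)`. -/

set_option autoImplicit false

namespace Pool.Agent.TH380.PN

open Pool.Agent.TH396.IN

section
variable {F : Type} [Field F]

/-- Hahn series in `t` with coefficients in `F[X, X⁻¹][Y]` -/
abbrev HB (F : Type) [Field F] : Type := HahnSeries ℝ (LP F ℕ)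

/-- the monomial `t ^ a X ^ i Y ^ j` -/
noncomputable def mo (F : Type) [Field F] (a : ℝ) (i : ℤ) (j : ℕ) : HB F :=
  HahnSeries.single a (AddMonoidAlgebra.single (i, j) 1)

/-- the coefficient of `t ^ a X ^ i Y ^ j` -/
noncomputable def co (x : HB F) (a : ℝ) (i : ℤ) (j : ℕ) : F := (x.coeff a).coeff (i, j)

/-- the inclusion of the constants -/
noncomputable def inc : HahnSeries ℝ F →+* HB F where
  toFun x := x.map (AddMonoidAlgebra.singleZeroRingHom (R := F) (M := ℤ × ℕ))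
  map_one' := by
    ext a m
    simp only [HahnSeries.map_coeff, HahnSeries.coeff_one]
    split_ifs <;> simp [AddMonoidAlgebra.one_def]
  map_mul' x y := HahnSeries.map_mul
    ((AddMonoidAlgebra.singleZeroRingHom (R := F) (M := ℤ × ℕ)) : F →ₙ+* LP F ℕ)
  map_zero' := by ext; simp
  map_add' x y := by ext; simp

/-- the scalars -/
noncomputable def scl (c : F) : HB F := inc (HahnSeries.C c)

/-- only terms `t ^ a X ^ i Y ^ j` with `s j + max (τ i, - (1 - τ) i) ≤ a` -/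
def InR (τ s : ℝ) (u : HB F) : Prop :=
  ∀ (a : ℝ) (i : ℤ) (j : ℕ), co u a i j ≠ 0 → s * j + τ * i ≤ a ∧ s * j - (1 - τ) * i ≤ a

/-- `t ^ τ X` -/
noncomputable def xx (F : Type) [Field F] (τ : ℝ) : HB F := mo F τ 1 0

/-- `t ^ (1 - τ) X⁻¹ (1 + t ^ s Y)` -/
noncomputable def yy (F : Type) [Field F] (τ s : ℝ) : HB F :=
  mo F (1 - τ) (-1) 0 + mo F (1 - τ + s) (-1) 1

/-- the coordinate `x = (xx - yy) / 2` of the tube -/
noncomputable def DD (F : Type) [Field F] (τ s : ℝ) : HB F := scl (2 : F)⁻¹ * (xx F τ - yy F τ s)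

/-- `c` is the root of `c ^ 3 - c = (xx + yy) / 2` with constant term `1` -/
structure Root (τ s : ℝ) (c : HB F) : Prop where
  inR : InR τ s c
  eq : c ^ 3 - c = scl (2 : F)⁻¹ * (xx F τ + yy F τ s)
  one : co c 0 0 0 = 1

/-- the value at `x = X2`, `z = X1` of a polynomial in `z` over the polynomials in `x` -/
noncomputable def evP (X2 X1 : HB F) : Polynomial (Polynomial (HahnSeries ℝ F)) →+* HB F :=
  Polynomial.eval₂RingHom (Polynomial.eval₂RingHom inc X2) X1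

/-- degree at most `D`: the coefficient of `z ^ k` has degree at most `D - k` in `x` -/
def Wt (D : ℝ) (P : Polynomial (Polynomial (HahnSeries ℝ F))) : Prop :=
  ∀ k i : ℕ, (P.coeff k).coeff i ≠ 0 → (i : ℝ) + k ≤ D

open Polynomial in
/-- the nodal cubic `z (z - 1) ^ 2 - x ^ 2 - t` -/
noncomputable def hh (F : Type) [Field F] : Polynomial (Polynomial (HahnSeries ℝ F)) :=
  X * (X - 1) ^ 2 - C (X ^ 2 + C (HahnSeries.single 1 1))

end

/-! The pieces -/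

/-- K3-1: the root -/
def S_root : Prop := ∀ (F : Type) [Field F], (2 : F) ≠ 0 → ∀ τ s : ℝ, 0 < τ → τ < 1 → 0 < s →
  ∃ c : HB F, Root τ s c

/-- K3-2: the face homomorphisms on the subring of the series `InR τ s` -/
def S_face : Prop := ∀ (F : Type) [Field F] (τ s : ℝ), 0 < τ → τ < 1 → 0 < s →
  ∃ (R : Subring (HB F)) (φ ψ : R →+* PowerSeries F), (∀ u, u ∈ R ↔ InR τ s u) ∧
    (∀ u : R, ∀ n : ℕ, PowerSeries.coeff n (φ u) = co (u : HB F) (τ * n) n 0) ∧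
    (∀ u : R, ∀ n : ℕ, PowerSeries.coeff n (ψ u) = co (u : HB F) ((1 - τ) * n) (-n) 0)

/-- K3-3: orders of `G(c)` and `G(-c)` for a polynomial `G` and a power series `c` with
`c ^ 3 - c = X / 2`, `c(0) = 1` -/
def S_ord : Prop := ∀ (F : Type) [Field F], (2 : F) ≠ 0 → ∀ (c : PowerSeries F),
  c ^ 3 - c = PowerSeries.C (2 : F)⁻¹ * PowerSeries.X → PowerSeries.coeff 0 c = 1 →
  ∀ G : Polynomial F, G ≠ 0 → ∃ α β : ℕ, α + β ≤ G.natDegree ∧
    PowerSeries.coeff α (G.eval₂ PowerSeries.C c) ≠ 0 ∧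
    PowerSeries.coeff β (G.eval₂ PowerSeries.C (-c)) ≠ 0

/-- K3-4: expansion in powers of the cubic -/
def S_exp : Prop := ∀ (F : Type) [Field F] (D : ℝ)
  (P : Polynomial (Polynomial (HahnSeries ℝ F))), Wt D P →
  ∃ (N : ℕ) (g : ℕ → Polynomial (Polynomial (HahnSeries ℝ F))),
    (∀ j : ℕ, Wt (D - 3 * j) (g j) ∧ ∀ k, 3 ≤ k → (g j).coeff k = 0) ∧
    P = ∑ j ∈ Finset.range N, g j * hh F ^ j

/-- K3-5: the value of a reduced polynomial on the tube -/
def S_red : Prop := ∀ (F : Type) [Field F], (2 : F) ≠ 0 → ∀ τ s : ℝ, 0 < τ → τ < 1 → 0 < s →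
  ∀ c : HB F, Root τ s c → ∀ (D : ℝ) (g : Polynomial (Polynomial (HahnSeries ℝ F))),
    3 * D < s → g ≠ 0 → (∀ k, 3 ≤ k → g.coeff k = 0) → Wt D g →
    ∃ a : ℝ, (∀ b < a, (evP (DD F τ s) (c ^ 2) g).coeff b = 0) ∧
      (evP (DD F τ s) (c ^ 2) g).coeff a ≠ 0 ∧
      ∀ (i : ℤ) (j : ℕ), co (evP (DD F τ s) (c ^ 2) g) a i j ≠ 0 →
        j = 0 ∧ -(τ * (3 * D)) ≤ i ∧ (i : ℝ) ≤ (1 - τ) * (3 * D)

/-- K3-6: the same for polynomials of bounded degree: the support lies in the triangle -/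
def S_lead : Prop := ∀ (F : Type) [Field F], (2 : F) ≠ 0 → ∀ τ s : ℝ, 0 < τ → τ < 1 → 0 < s →
  ∀ c : HB F, Root τ s c → ∀ (D : ℝ) (P : Polynomial (Polynomial (HahnSeries ℝ F))),
    3 * D < s → P ≠ 0 → Wt D P →
    ∃ a : ℝ, (∀ b < a, (evP (DD F τ s) (c ^ 2) P).coeff b = 0) ∧
      (evP (DD F τ s) (c ^ 2) P).coeff a ≠ 0 ∧
      ∀ (i : ℤ) (j : ℕ), co (evP (DD F τ s) (c ^ 2) P) a i j ≠ 0 →
        -(τ * (3 * (D - 3 * j))) ≤ i ∧ (i : ℝ) ≤ (1 - τ) * (3 * (D - 3 * j))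

/-- K3-7: `c` is a unit -/
def S_unit : Prop := ∀ (F : Type) [Field F] (τ s : ℝ), 0 < τ → τ < 1 → 0 < s →
  ∀ c : HB F, Root τ s c → IsUnit c

end Pool.Agent.TH380.PN
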