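import Pool.Agent.TH380.PN.Bas
import Pool.Agent.TH380.PN.HMap

/-! KEY3 with spectators. -/

set_option autoImplicit false

namespace Pool.Agent.TH380.PN

open Pool.Agent.TH396.IN Finset

section CI
variable {B : Type} [CommRing B]

/-- Hahn series all of whose coefficients lie in `I` -/
def CI (I : Ideal B) : Ideal (HahnSeries ℝ B) where
  carrier := {x | ∀ a, x.coeff a ∈ I}
  add_mem' {x y} hx hy a := by
    rw [HahnSeries.coeff_add]
    exact I.add_mem (hx a) (hy a)
  zero_mem' a := by
    rw [HahnSeries.coeff_zero]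
    exact I.zero_mem
  smul_mem' c x hx a := by
    rw [smul_eq_mul, HahnSeries.coeff_mul]
    exact I.sum_mem fun ij _ => I.mul_mem_left _ (hx _)

theorem CI_mul_le (I I' : Ideal B) : CI I * CI I' ≤ CI (I * I') := by
  rw [Ideal.mul_le]
  intro x hx y hy a
  rw [HahnSeries.coeff_mul]
  exact (I * I').sum_mem fun ij _ => Ideal.mul_mem_mul (hx _) (hy _)

theorem CI_pow_le (I : Ideal B) (w : ℕ) : CI I ^ w ≤ CI (I ^ w) := by
  induction w with
  | zero => intro x _ a; simp
  | succ w ih =>
    rw [pow_succ, pow_succ]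
    exact (Ideal.mul_mono_left ih).trans (CI_mul_le _ _)

/-- multiplicities transfer to the coefficients -/
theorem transfer {A C : Type} [CommRing A] [CommRing C] (Φ : A →+* HahnSeries ℝ B) (ε : B →+* C)
    {f : A} {w : ℕ} (hf : f ∈ RingHom.ker ((hmap ε).comp Φ) ^ w) (a : ℝ) :
    (Φ f).coeff a ∈ RingHom.ker ε ^ w := by
  have h1 : (RingHom.ker ((hmap ε).comp Φ)).map Φ ≤ CI (RingHom.ker ε) := by
    rw [Ideal.map_le_iff_le_comap]
    intro x hx b
    rw [RingHom.mem_ker, RingHom.comp_apply] at hx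
    rw [RingHom.mem_ker, ← hmap_coeff, hx, HahnSeries.coeff_zero]
  have h2 := Ideal.mem_map_of_mem Φ hf
  rw [Ideal.map_pow] at h2
  exact CI_pow_le _ _ (Ideal.pow_right_mono h1 w h2) a

end CI

section
variable {F : Type} [Field F] {P : Type} [AddCommMonoid P]

/-- the exponents without spectators -/
def io (P : Type) [AddCommMonoid P] : ℤ × ℕ →+ ℤ × (ℕ × P) where
  toFun m := (m.1, (m.2, 0))
  map_zero' := rfl
  map_add' m m' := by ext <;> simp

/-- Hahn series over the Laurent polynomials with spectators -/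
abbrev HP (F : Type) [Field F] (P : Type) [AddCommMonoid P] : Type := HahnSeries ℝ (LP F (ℕ × P))

/-- the embedding -/
noncomputable def emb (F : Type) [Field F] (P : Type) [AddCommMonoid P] : HB F →+* HP F P :=
  hmap (AddMonoidAlgebra.mapDomainRingHom F (io P))

/-- the spectator monomial -/
noncomputable def spm (F : Type) [Field F] {P : Type} [AddCommMonoid P] (p : P) : HP F P :=
  HahnSeries.single 0 (AddMonoidAlgebra.single (0, (0, p)) 1)

theorem spm_zero : spm F (0 : P) = 1 := rfl

theorem spm_add (p q : P) : spm F (p + q) = spm F p * spm F q := by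
  unfold spm
  rw [HahnSeries.single_mul_single, AddMonoidAlgebra.single_mul_single, add_zero, one_mul]
  rfl

open Classical in
theorem mapDomain_mul_single (h : LP F ℕ) (p' : P) (l : ℤ) (e : ℕ) (p : P) :
    (AddMonoidAlgebra.mapDomainRingHom F (io P) h *
      AddMonoidAlgebra.single (0, (0, p')) 1).coeff (l, (e, p)) =
      if p = p' then h.coeff (l, e) else 0 := by
  induction h using AddMonoidAlgebra.induction_linear with
  | zero => simp
  | add f g hf hg =>
    rw [map_add, add_mul, AddMonoidAlgebra.coeff_add, Finsupp.add_apply, hf, hg]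
    split_ifs <;> simp
  | single m r =>
    have h1 : AddMonoidAlgebra.mapDomainRingHom F (io P) (AddMonoidAlgebra.single m r) =
        AddMonoidAlgebra.single (io P m) r := AddMonoidAlgebra.mapDomain_single
    rw [h1, AddMonoidAlgebra.single_mul_single, mul_one, AddMonoidAlgebra.coeff_single,
      AddMonoidAlgebra.coeff_single, Finsupp.single_apply, Finsupp.single_apply]
    have h2 : (io P m + (0, (0, p')) = (l, (e, p))) ↔ (p = p' ∧ m = (l, e)) := by
      rcases m with ⟨m1, m2⟩
      simp only [io, AddMonoidHom.coe_mk, ZeroHom.coe_mk, Prod.mk_add_mk, add_zero, zero_add,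
        Prod.mk.injEq]
      constructor
      · rintro ⟨h3, h4, h5⟩; exact ⟨h5.symm, h3, h4⟩
      · rintro ⟨h3, h4, h5⟩; exact ⟨h4, h5, h3.symm⟩
    by_cases hp : p = p'
    · rw [if_pos hp]
      by_cases hm : m = (l, e)
      · rw [if_pos (h2.2 ⟨hp, hm⟩), if_pos hm]
      · rw [if_neg (fun h => hm (h2.1 h).2), if_neg hm]
    · rw [if_neg hp, if_neg (fun h => hp (h2.1 h).1)]

open Classical in
theorem emb_mul_spm (u : HB F) (p' : P) (a : ℝ) (l : ℤ) (e : ℕ) (p : P) :
    ((emb F P u * spm F p').coeff a).coeff (l, (e, p)) = if p = p' then co u a l e else 0 := by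
  unfold spm
  rw [HahnSeries.coeff_mul_single, sub_zero]
  exact mapDomain_mul_single _ _ _ _ _

/-- the images of the monomials -/
noncomputable def mz (cu : (HB F)ˣ) (d : HB F) : Multiplicative (ℤ × (ℕ × P)) →* HP F P where
  toFun m := emb F P (((cu ^ (2 * m.toAdd.1) : (HB F)ˣ) : HB F) * d ^ m.toAdd.2.1) *
    spm F m.toAdd.2.2
  map_one' := by
    simp [spm_zero]
  map_mul' m m' := by
    rw [toAdd_mul, Prod.fst_add, Prod.snd_add, Prod.fst_add, Prod.snd_add, mul_add, zpow_add,
      Units.val_mul, pow_add, spm_add]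
    simp only [map_mul]
    ring

/-- the substitution `z -> c ^ 2`, `x -> d` -/
noncomputable def psi (P : Type) [AddCommMonoid P] (cu : (HB F)ˣ) (d : HB F) :
    LP (HahnSeries ℝ F) (ℕ × P) →+* HP F P :=
  AddMonoidAlgebra.liftNCRingHom ((emb F P).comp inc) (mz cu d) (fun _ _ => Commute.all _ _)

theorem psi_single (cu : (HB F)ˣ) (d : HB F) (m : ℤ × (ℕ × P)) (r : HahnSeries ℝ F) :
    psi P cu d (AddMonoidAlgebra.single m r) =
      emb F P (inc r * (((cu ^ (2 * m.1) : (HB F)ˣ) : HB F) * d ^ m.2.1)) * spm F m.2.2 := by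
  unfold psi
  rw [AddMonoidAlgebra.liftNCRingHom_single, map_mul, mul_assoc]
  rfl

/-- the slice of the spectator exponent `p` as a polynomial -/
noncomputable def sl (f : LP (HahnSeries ℝ F) (ℕ × P)) (p : P) :
    Polynomial (Polynomial (HahnSeries ℝ F)) := by
  classical
  exact ∑ m ∈ f.coeff.support.filter (fun m => m.2.2 = p),
    Polynomial.monomial m.1.toNat (Polynomial.monomial m.2.1 (f.coeff m))

theorem sl_coeff {f : LP (HahnSeries ℝ F) (ℕ × P)} (hf : ∀ m, f.coeff m ≠ 0 → 0 ≤ m.1) (p : P)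
    (k i : ℕ) : ((sl f p).coeff k).coeff i = f.coeff (k, (i, p)) := by
  classical
  unfold sl
  rw [Polynomial.finsetSum_coeff, Polynomial.finsetSum_coeff]
  by_cases h : f.coeff ((k : ℤ), (i, p)) = 0
  · rw [h]
    apply sum_eq_zero
    intro m hm
    rw [mem_filter, Finsupp.mem_support_iff] at hm
    rw [Polynomial.coeff_monomial]
    split_ifs with h1
    · rw [Polynomial.coeff_monomial]
      split_ifs with h2
      · exfalso
        apply hm.1
        have h3 := hf m hm.1
        have h4 : m = ((k : ℤ), (i, p)) := by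
          ext
          · simp only; omega
          · exact h2
          · exact hm.2
        rw [h4]
        exact h
      · rfl
    · rw [Polynomial.coeff_zero]
  · rw [sum_eq_single ((k : ℤ), (i, p))]
    · simp
    · intro m hm hne
      rw [mem_filter, Finsupp.mem_support_iff] at hm
      rw [Polynomial.coeff_monomial]
      split_ifs with h1
      · rw [Polynomial.coeff_monomial, if_neg]
        intro h2
        apply hne
        have h3 := hf m hm.1
        ext
        · simp only; omega
        · exact h2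
        · exact hm.2
      · rw [Polynomial.coeff_zero]
    · intro h1
      exfalso
      apply h1
      rw [mem_filter, Finsupp.mem_support_iff]
      exact ⟨h, rfl⟩

theorem eq_zero_of_coeff {M R : Type*} [Semiring R] {f : AddMonoidAlgebra R M}
    (h : ∀ m, f.coeff m = 0) : f = 0 := by
  ext m
  rw [h m]
  rfl

theorem sum_single_coeff {M R : Type*} [Semiring R] (f : AddMonoidAlgebra R M) :
    ∑ m ∈ f.coeff.support, AddMonoidAlgebra.single m (f.coeff m) = f := by
  ext m
  rw [AddMonoidAlgebra.coeff_sum, Finsupp.finsetSum_apply]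
  classical
  simp only [AddMonoidAlgebra.coeff_single, Finsupp.single_apply]
  rw [Finset.sum_ite_eq']
  split_ifs with h
  · rfl
  · exact (Finsupp.notMem_support_iff.1 h).symm

theorem psi_coeff {f : LP (HahnSeries ℝ F) (ℕ × P)} (hf : ∀ m, f.coeff m ≠ 0 → 0 ≤ m.1)
    (cu : (HB F)ˣ) (d : HB F) (a : ℝ) (l : ℤ) (e : ℕ) (p : P) :
    ((psi P cu d f).coeff a).coeff (l, (e, p)) = co (evP d ((cu : HB F) ^ 2) (sl f p)) a l e := by
  classical
  conv_lhs => rw [← sum_single_coeff f]
  rw [map_sum, HahnSeries.coeff_sum, AddMonoidAlgebra.coeff_sum, Finsupp.finsetSum_apply]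
  unfold sl
  rw [map_sum]
  unfold co
  rw [HahnSeries.coeff_sum, AddMonoidAlgebra.coeff_sum, Finsupp.finsetSum_apply, sum_filter]
  refine sum_congr rfl fun m hm => ?_
  rw [psi_single, emb_mul_spm]
  by_cases hp : m.2.2 = p
  · rw [if_pos hp.symm, if_pos hp]
    have h3 := hf m (Finsupp.mem_support_iff.1 hm)
    have h4 : ((cu ^ (2 * m.1) : (HB F)ˣ) : HB F) = ((cu : HB F) ^ 2) ^ m.1.toNat := by
      conv_lhs => rw [← Int.toNat_of_nonneg h3]
      rw [zpow_mul, zpow_natCast]
      norm_cast
    unfold evP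
    rw [Polynomial.coe_eval₂RingHom, Polynomial.eval₂_monomial, Polynomial.coe_eval₂RingHom,
      Polynomial.eval₂_monomial, h4]
    unfold co
    congr 3
    ring
  · rw [if_neg (fun h => hp h.symm), if_neg hp]

end

instance charZero_hahn {K : Type} [Field K] [CharZero K] : CharZero (HahnSeries ℝ K) :=
  charZero_of_injective_ringHom (f := (HahnSeries.C : K →+* HahnSeries ℝ K)) HahnSeries.C_injective

/-- **KEY3**, from the pieces -/
theorem key3' (hroot : S_root) (hlead : S_lead) (hunit : S_unit) {ι : Type} [Fintype ι] {P : Type}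
    [AddCommMonoid P] {dg : P → ℕ} {σ c : ℝ} (h0 : 0 < σ) (h1 : σ < 1)
    (h : GoodT ι dg σ 9 3 c) : GoodS ι dg (3 * c) := by
  classical
  intro B
  obtain ⟨F, _, _, e, he⟩ := h (3 * B)
  have h2 : (2 : F) ≠ 0 := two_ne_zero
  set s : ℝ := 3 * B + 1 with hs
  have hs0 : 0 < s := by positivity
  obtain ⟨r, hr⟩ := hroot F h2 σ s h0 h1 hs0
  obtain ⟨cu, hcu⟩ := hunit F σ s h0 h1 hs0 r hr
  let d : HB F := DD F σ s
  let e' : ι → (LP (HahnSeries ℝ F) (ℕ × P) →ₐ[HahnSeries ℝ F] HahnSeries ℝ F) := fun i =>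
    { (hmap ((e i : LP F (ℕ × P) →+* F))).comp (psi P cu d) with
      commutes' := by
        intro x
        show hmap ((e i : LP F (ℕ × P) →+* F)) (psi P cu d (AddMonoidAlgebra.single 0 x)) = x
        rw [psi_single]
        simp only [Prod.fst_zero, Prod.snd_zero, mul_zero, zpow_zero, Units.val_one, pow_zero,
          mul_one, spm_zero]
        ext a
        rw [hmap_coeff]
        have h3 : (emb F P (inc x)).coeff a = AddMonoidAlgebra.single 0 (x.coeff a) := by
          show AddMonoidAlgebra.mapDomainRingHom F (io P) (AddMonoidAlgebra.single 0 (x.coeff a)) = _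
          exact AddMonoidAlgebra.mapDomain_single
        rw [h3]
        exact (e i).commutes (x.coeff a) }
  have hker : ∀ i, RingHom.ker (e' i) =
      RingHom.ker ((hmap ((e i : LP F (ℕ × P) →+* F))).comp (psi P cu d)) := fun i => rfl
  refine ⟨HahnSeries ℝ F, inferInstance, inferInstance, e', ?_⟩
  intro n w hn hw f hf hm
  by_contra hne
  have hf0 : ∀ m, f.coeff m ≠ 0 → 0 ≤ m.1 := fun m hm => (hf m hm).1
  have hnB : (n : ℝ) ≤ B := by exact_mod_cast hn
  -- the nonzero slices
  let S := (f.coeff.support.image fun m => m.2.2).filter fun p => sl f p ≠ 0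
  have hW : ∀ p, Wt ((n : ℝ) - dg p) (sl f p) := by
    intro p k i hki
    rw [sl_coeff hf0] at hki
    have h3 := (hf _ hki).2
    have h4 : (k : ℝ) + i + dg p ≤ n := by
      simp only at h3
      exact_mod_cast h3
    linarith
  have hL : ∀ p, sl f p ≠ 0 → ∃ a : ℝ, (∀ b < a, (evP d ((cu : HB F) ^ 2) (sl f p)).coeff b = 0) ∧
      (evP d ((cu : HB F) ^ 2) (sl f p)).coeff a ≠ 0 ∧
      ∀ (i : ℤ) (j : ℕ), co (evP d ((cu : HB F) ^ 2) (sl f p)) a i j ≠ 0 →
        -(σ * (3 * ((n : ℝ) - dg p - 3 * j))) ≤ i ∧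
          (i : ℝ) ≤ (1 - σ) * (3 * ((n : ℝ) - dg p - 3 * j)) := by
    intro p hp
    have := hlead F h2 σ s h0 h1 hs0 r hr ((n : ℝ) - dg p) (sl f p) (by
      have h3 : (0 : ℝ) ≤ dg p := Nat.cast_nonneg _
      rw [hs]
      linarith) hp (hW p)
    rw [hcu]
    exact this
  have hex : ∃ p, sl f p ≠ 0 := by
    by_contra hcon
    push Not at hcon
    apply hne
    apply eq_zero_of_coeff
    intro m
    by_contra hm'
    have h3 := hf0 m hm'
    have h4 := sl_coeff hf0 m.2.2 m.1.toNat m.2.1
    rw [hcon, Polynomial.coeff_zero, Polynomial.coeff_zero] at h4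
    apply hm'
    have h5 : m = ((m.1.toNat : ℤ), (m.2.1, m.2.2)) := by
      ext
      · simp only; omega
      · rfl
      · rfl
    rw [h5, ← h4]
  have hSmem : ∀ p, sl f p ≠ 0 → p ∈ S := by
    intro p hp
    rw [mem_filter]
    refine ⟨?_, hp⟩
    by_contra hcon
    apply hp
    unfold sl
    apply sum_eq_zero
    intro m hm'
    exfalso
    apply hcon
    rw [mem_filter] at hm'
    rw [mem_image]
    exact ⟨m, hm'.1, hm'.2⟩
  choose! A hA1 hA2 hA3 using hL
  obtain ⟨p0, hp0⟩ := hex
  obtain ⟨q, hqS, hmin⟩ := S.exists_min_image A ⟨p0, hSmem p0 hp0⟩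
  have hq := (mem_filter.1 hqS).2
  have hzero : (psi P cu d f).coeff (A q) = 0 := by
    apply he (3 * n) w (by linarith) (by linarith)
    · rintro ⟨l, j, p⟩ hlj
      rw [psi_coeff hf0] at hlj
      have hp : sl f p ≠ 0 := by
        intro h3
        rw [h3, map_zero] at hlj
        exact hlj (by simp [co])
      have h4 := hmin p (hSmem p hp)
      have h5 : A q = A p := by
        rcases h4.lt_or_eq with h5 | h5
        · exfalso
          apply hlj
          unfold co
          rw [hA1 p hp _ h5]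
          rfl
        · exact h5
      rw [h5] at hlj
      have h6 := hA3 p hp l j hlj
      show -(σ * (3 * (n : ℝ) - 9 * j - 3 * dg p)) ≤ (l : ℝ) ∧
        (l : ℝ) ≤ (1 - σ) * (3 * (n : ℝ) - 9 * j - 3 * dg p)
      have e1 : 3 * ((n : ℝ) - dg p - 3 * j) = 3 * (n : ℝ) - 9 * j - 3 * dg p := by ring
      rw [e1] at h6
      exact h6
    · intro i
      have h3 := hm i
      rw [hker i] at h3
      exact transfer (psi P cu d) _ h3 (A q)
  apply hA2 q hq
  ext ⟨l, j⟩
  have h3 := psi_coeff hf0 cu d (A q) l j q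
  rw [hzero] at h3
  unfold co at h3
  rw [← h3]
  rfl

end Pool.Agent.TH380.PN
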