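import Pool.Agent.TH380.PN.K3Defs

/-! K3-6: the support of the leading coefficient (helper554, job 4463). -/

set_option autoImplicit false

namespace Pool.Agent.TH380.PN

open Pool.Agent.TH396.IN

namespace LeadL

variable {F : Type} [Field F]

theorem mo_mul (a b : ℝ) (i k : ℤ) (j l : ℕ) :
    mo F a i j * mo F b k l = mo F (a + b) (i + k) (j + l) := by
  unfold mo
  rw [HahnSeries.single_mul_single, AddMonoidAlgebra.single_mul_single, mul_one]
  rfl

theorem mo_zero : mo F 0 0 0 = 1 := rfl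

theorem mo_pow (a : ℝ) (n : ℕ) : (mo F a 0 1) ^ n = mo F (a * n) 0 n := by
  induction n with
  | zero => rw [pow_zero, Nat.cast_zero, mul_zero, mo_zero]
  | succ n ih =>
    rw [pow_succ, ih, mo_mul]
    congr 1
    push_cast
    ring

theorem inc_single (a : ℝ) (r : F) :
    inc (HahnSeries.single a r) = HahnSeries.single a (AddMonoidAlgebra.single ((0 : ℤ), 0) r) := by
  ext b m
  change ((AddMonoidAlgebra.singleZeroRingHom (R := F) (M := ℤ × ℕ))
    ((HahnSeries.single a r).coeff b)).coeff m = _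
  by_cases h : b = a
  · subst h
    rw [HahnSeries.coeff_single_same, HahnSeries.coeff_single_same]
    rfl
  · rw [HahnSeries.coeff_single_of_ne h, HahnSeries.coeff_single_of_ne h, map_zero]

theorem scl_two (h2 : (2 : F) ≠ 0) : scl (2 : F)⁻¹ * 2 = 1 := by
  have h1 : (2 : HB F) = inc (HahnSeries.C 2) := by
    rw [map_ofNat, map_ofNat]
  unfold scl
  rw [h1, ← map_mul, ← map_mul, inv_mul_cancel₀ h2, map_one, map_one]

theorem evP_X (X2 X1 : HB F) : evP X2 X1 Polynomial.X = X1 := Polynomial.eval₂_X _ _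

theorem evP_C (X2 X1 : HB F) (p : Polynomial (HahnSeries ℝ F)) :
    evP X2 X1 (Polynomial.C p) = Polynomial.eval₂RingHom inc X2 p := Polynomial.eval₂_C _ _

/-- the value of the cubic -/
theorem evP_hh (h2 : (2 : F) ≠ 0) {τ s : ℝ} {c : HB F} (hc : Root τ s c) :
    evP (DD F τ s) (c ^ 2) (hh F) = mo F (1 + s) 0 1 := by
  have e0 : Polynomial.eval₂RingHom inc (DD F τ s)
      (Polynomial.X ^ 2 + Polynomial.C (HahnSeries.single 1 1)) =
      DD F τ s ^ 2 + inc (HahnSeries.single 1 1) := by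
    have f1 : Polynomial.eval₂RingHom inc (DD F τ s) Polynomial.X = DD F τ s :=
      Polynomial.eval₂_X _ _
    have f2 : Polynomial.eval₂RingHom inc (DD F τ s) (Polynomial.C (HahnSeries.single 1 1)) =
        inc (HahnSeries.single 1 1) := Polynomial.eval₂_C _ _
    rw [map_add, map_pow, f1, f2]
  have e1 : evP (DD F τ s) (c ^ 2) (hh F) = c ^ 2 * (c ^ 2 - 1) ^ 2 -
      (DD F τ s ^ 2 + inc (HahnSeries.single 1 1)) := by
    have f2 : ∀ A B : Polynomial (Polynomial (HahnSeries ℝ F)), A - B + B = A :=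
      fun A B => sub_add_cancel A B
    have f1 : (Polynomial.X - 1 : Polynomial (Polynomial (HahnSeries ℝ F))) + 1 = Polynomial.X :=
      f2 Polynomial.X 1
    have g1 : evP (DD F τ s) (c ^ 2) (Polynomial.X - 1) = c ^ 2 - 1 := by
      rw [eq_sub_iff_add_eq, ← map_one (evP (DD F τ s) (c ^ 2)), ← map_add, f1, evP_X]
    have g2 : evP (DD F τ s) (c ^ 2) (Polynomial.X * (Polynomial.X - 1) ^ 2) =
        c ^ 2 * (c ^ 2 - 1) ^ 2 := by
      rw [map_mul, map_pow, g1, evP_X]
    unfold hh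
    rw [eq_sub_iff_add_eq, ← e0, ← evP_C (DD F τ s) (c ^ 2), ← map_add, f2, g2]
  have e2 : c ^ 2 * (c ^ 2 - 1) ^ 2 = (c ^ 3 - c) ^ 2 := by ring
  have e3 : inc (HahnSeries.single (1 : ℝ) (1 : F)) = mo F 1 0 0 := inc_single 1 1
  have e4 : xx F τ * yy F τ s = mo F 1 0 0 + mo F (1 + s) 0 1 := by
    unfold xx yy
    rw [mul_add, mo_mul, mo_mul]
    congr 2
    · ring
    · ring
  have e5 := scl_two h2
  rw [e1, e2, hc.eq, e3]
  unfold DD
  have e6 : (scl (2 : F)⁻¹ * (xx F τ + yy F τ s)) ^ 2 - ((scl (2 : F)⁻¹ * (xx F τ - yy F τ s)) ^ 2 +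
      mo F 1 0 0) = (scl (2 : F)⁻¹ * 2) ^ 2 * (xx F τ * yy F τ s) - mo F 1 0 0 := by ring
  rw [e6, e5, one_pow, one_mul, e4, add_sub_cancel_left]

theorem co_add (x y : HB F) (a : ℝ) (i : ℤ) (j : ℕ) : co (x + y) a i j = co x a i j + co y a i j := by
  simp [co]

theorem co_zero (a : ℝ) (i : ℤ) (j : ℕ) : co (0 : HB F) a i j = 0 := by
  simp [co]

theorem co_sum {κ : Type*} (S : Finset κ) (f : κ → HB F) (a : ℝ) (i : ℤ) (j : ℕ) :
    co (∑ n ∈ S, f n) a i j = ∑ n ∈ S, co (f n) a i j := by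
  classical
  induction S using Finset.induction_on with
  | empty => rw [Finset.sum_empty, Finset.sum_empty, co_zero]
  | insert n S hn ih => rw [Finset.sum_insert hn, Finset.sum_insert hn, co_add, ih]

theorem coeff_mul_mo (u : HB F) (A a : ℝ) (n : ℕ) :
    (u * mo F A 0 n).coeff a = u.coeff (a - A) * AddMonoidAlgebra.single ((0 : ℤ), n) 1 := by
  unfold mo
  have := HahnSeries.coeff_mul_single_add (r := AddMonoidAlgebra.single ((0 : ℤ), n) (1 : F))
    (x := u) (a := a - A) (b := A)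
  rwa [sub_add_cancel] at this

/-- the coefficients of a product with a monomial -/
theorem co_mul_mo_ne {u : HB F} {A a : ℝ} {n : ℕ} {i : ℤ} {j : ℕ}
    (h : co (u * mo F A 0 n) a i j ≠ 0) : ∃ l : ℕ, j = l + n ∧ co u (a - A) i l ≠ 0 := by
  unfold co at h
  rw [coeff_mul_mo] at h
  by_cases hj : n ≤ j
  · obtain ⟨l, rfl⟩ := Nat.exists_eq_add_of_le' hj
    refine ⟨l, rfl, fun h0 => h ?_⟩
    have h1 := AddMonoidAlgebra.coeff_mul_single_add (u.coeff (a - A)) (1 : F) ((0 : ℤ), n) (i, l)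
    rw [Prod.mk_add_mk, add_zero, mul_one] at h1
    rw [h1]
    exact h0
  · exfalso
    apply h
    apply AddMonoidAlgebra.coeff_mul_single_of_forall_add_ne
    intro d hd
    have := congrArg Prod.snd hd
    simp at this
    omega

theorem co_mul_mo (u : HB F) (A a : ℝ) (n : ℕ) (i : ℤ) (l : ℕ) :
    co (u * mo F A 0 n) a i (l + n) = co u (a - A) i l := by
  unfold co
  rw [coeff_mul_mo]
  have h1 := AddMonoidAlgebra.coeff_mul_single_add (u.coeff (a - A)) (1 : F) ((0 : ℤ), n) (i, l)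
  rw [Prod.mk_add_mk, add_zero, mul_one] at h1
  exact h1

theorem co_ne_coeff {u : HB F} {a : ℝ} {i : ℤ} {j : ℕ} (h : co u a i j ≠ 0) : u.coeff a ≠ 0 := by
  intro h0
  apply h
  unfold co
  rw [h0]
  simp

theorem exists_co {u : HB F} {a : ℝ} (h : u.coeff a ≠ 0) : ∃ (i : ℤ) (j : ℕ), co u a i j ≠ 0 := by
  by_contra hcon
  push Not at hcon
  apply h
  ext ⟨i, j⟩
  exact hcon i j

end LeadL

open LeadL in
/-- K3-6 -/
theorem leadT (h4 : S_exp) (h5 : S_red) : S_lead := by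
  classical
  intro F _ h2 τ s hτ0 hτ1 hs c hc D P hD hP hW
  obtain ⟨N, g, hg, hPg⟩ := h4 F D P hW
  set E := evP (DD F τ s) (c ^ 2) with hE
  have hEh : E (hh F) = mo F (1 + s) 0 1 := evP_hh h2 hc
  have hEP : E P = ∑ j ∈ Finset.range N, E (g j) * mo F ((1 + s) * j) 0 j := by
    rw [hPg, map_sum]
    refine Finset.sum_congr rfl fun j _ => ?_
    rw [map_mul, map_pow, hEh, mo_pow]
  -- the data of the nonzero terms
  have hdat : ∀ j : ℕ, ∃ a : ℝ, g j ≠ 0 → (∀ b < a, (E (g j)).coeff b = 0) ∧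
      (E (g j)).coeff a ≠ 0 ∧ ∀ (i : ℤ) (l : ℕ), co (E (g j)) a i l ≠ 0 →
        l = 0 ∧ -(τ * (3 * (D - 3 * j))) ≤ i ∧ (i : ℝ) ≤ (1 - τ) * (3 * (D - 3 * j)) := by
    intro j
    by_cases hj : g j = 0
    · exact ⟨0, fun h => absurd hj h⟩
    · have hj0 : (0 : ℝ) ≤ j := Nat.cast_nonneg j
      obtain ⟨a, ha⟩ := h5 F h2 τ s hτ0 hτ1 hs c hc (D - 3 * j) (g j) (by linarith) hj (hg j).2
        (hg j).1
      exact ⟨a, fun _ => ha⟩
  choose a ha using hdat
  set S := (Finset.range N).filter fun j => g j ≠ 0 with hS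
  have hSne : S.Nonempty := by
    rw [Finset.nonempty_iff_ne_empty]
    intro h
    apply hP
    rw [hPg]
    refine Finset.sum_eq_zero fun j hj => ?_
    have h1 : ¬ g j ≠ 0 := fun h1 => by
      have : j ∈ S := Finset.mem_filter.2 ⟨hj, h1⟩
      rw [h] at this
      exact absurd this (Finset.notMem_empty j)
    rw [not_not.1 h1, zero_mul]
  obtain ⟨j0, hj0, hmin⟩ := Finset.exists_min_image S (fun j => a j + (1 + s) * j) hSne
  have hj0g : g j0 ≠ 0 := (Finset.mem_filter.1 hj0).2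
  -- a nonzero term of the sum
  have key : ∀ (b : ℝ) (j : ℕ), j ∈ Finset.range N → b ≤ a j0 + (1 + s) * j0 → ∀ (i : ℤ) (l : ℕ),
      co (E (g j) * mo F ((1 + s) * j) 0 j) b i l ≠ 0 →
      g j ≠ 0 ∧ b = a j0 + (1 + s) * j0 ∧ b - (1 + s) * j = a j ∧ l = j ∧
        co (E (g j)) (a j) i 0 ≠ 0 := by
    intro b j hjN hb i l h
    obtain ⟨l', hl', hne⟩ := co_mul_mo_ne h
    have hgj : g j ≠ 0 := by
      intro h0
      apply hne
      rw [h0, map_zero, co_zero]
    have hjS : j ∈ S := Finset.mem_filter.2 ⟨hjN, hgj⟩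
    have h6 := hmin j hjS
    have h7 : a j ≤ b - (1 + s) * j := by
      by_contra hlt
      push Not at hlt
      exact co_ne_coeff hne ((ha j hgj).1 _ hlt)
    have h8 : b - (1 + s) * j = a j := by
      apply le_antisymm _ h7
      linarith
    rw [h8] at hne
    have h9 := ((ha j hgj).2.2 i l' hne).1
    rw [h9] at hne hl'
    exact ⟨hgj, by linarith, h8, by omega, hne⟩
  refine ⟨a j0 + (1 + s) * j0, ?_, ?_, ?_⟩
  · intro b hb
    by_contra hne
    obtain ⟨i, l, hil⟩ := exists_co hne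
    rw [hEP, co_sum] at hil
    obtain ⟨j, hj, hne'⟩ := Finset.exists_ne_zero_of_sum_ne_zero hil
    have := (key b j hj hb.le i l hne').2.1
    linarith
  · obtain ⟨i, l, hil⟩ := exists_co (ha j0 hj0g).2.1
    have hl0 := ((ha j0 hj0g).2.2 i l hil).1
    rw [hl0] at hil
    apply co_ne_coeff (i := i) (j := j0)
    rw [hEP, co_sum, Finset.sum_eq_single j0]
    · have h6 := co_mul_mo (E (g j0)) ((1 + s) * j0) (a j0 + (1 + s) * j0) j0 i 0
      rw [zero_add, add_sub_cancel_right] at h6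
      rw [h6]
      exact hil
    · intro j hj hjj
      by_contra hne
      exact hjj (key _ j hj le_rfl i j0 hne).2.2.2.1.symm
    · intro h
      exact absurd (Finset.mem_filter.1 hj0).1 h
  · intro i l hil
    rw [hEP, co_sum] at hil
    obtain ⟨j, hj, hne⟩ := Finset.exists_ne_zero_of_sum_ne_zero hil
    obtain ⟨hgj, -, -, hlj, hne'⟩ := key _ j hj le_rfl i l hne
    have h6 := (ha j hgj).2.2 i 0 hne'
    rw [hlj]
    exact h6.2

end Pool.Agent.TH380.PN
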