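import Pool.Agent.TH380.PN.K3Defs

/-! K3-3: orders of `G(c)` and `G(-c)` (job PN-K3 of helper380, written by helper113). -/

set_option autoImplicit false

namespace Pool.Agent.TH380.PN

namespace Ord

theorem coeff_mult {F : Type} [Field F] (G : Polynomial F) (hG : G ≠ 0) (a : F)
    (d w : PowerSeries F) (hd : d - PowerSeries.C a = PowerSeries.X * w)
    (hw : PowerSeries.constantCoeff w ≠ 0) :
    PowerSeries.coeff (G.rootMultiplicity a) (G.eval₂ PowerSeries.C d) ≠ 0 := by
  obtain ⟨H, hH, hnd⟩ := Polynomial.exists_eq_pow_rootMultiplicity_mul_and_not_dvd G hG a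
  obtain ⟨m, hm⟩ : ∃ m, m = G.rootMultiplicity a := ⟨_, rfl⟩
  rw [← hm] at hH ⊢
  have hd0 : PowerSeries.constantCoeff d = a := by
    have h := congrArg PowerSeries.constantCoeff hd
    simp only [map_sub, map_mul, PowerSeries.constantCoeff_X, zero_mul,
      PowerSeries.constantCoeff_C] at h
    exact sub_eq_zero.mp h
  have h1 : G.eval₂ PowerSeries.C d = PowerSeries.X ^ m * (w ^ m * H.eval₂ PowerSeries.C d) := by
    rw [hH, Polynomial.eval₂_mul, Polynomial.eval₂_pow, Polynomial.eval₂_sub, Polynomial.eval₂_X,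
      Polynomial.eval₂_C, hd, mul_pow, mul_assoc]
  have h2 : PowerSeries.constantCoeff (H.eval₂ PowerSeries.C d) = H.eval a := by
    rw [Polynomial.hom_eval₂, hd0]
    have : (PowerSeries.constantCoeff (R := F)).comp (PowerSeries.C) = RingHom.id F := by
      ext x
      simp
    rw [this, Polynomial.eval₂_id]
  rw [h1, PowerSeries.coeff_X_pow_mul', if_pos le_rfl, Nat.sub_self,
    PowerSeries.coeff_zero_eq_constantCoeff, map_mul, map_pow, h2]
  refine mul_ne_zero (pow_ne_zero _ hw) ?_
  rw [Polynomial.dvd_iff_isRoot] at hnd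
  exact hnd

end Ord

theorem ord : S_ord := by
  intro F _ h2 c hc hc0 G hG
  rw [PowerSeries.coeff_zero_eq_constantCoeff] at hc0
  have hX : (PowerSeries.X : PowerSeries F) ∣ c - 1 := by
    rw [PowerSeries.X_dvd_iff, map_sub, hc0, map_one, sub_self]
  obtain ⟨w, hw⟩ := hX
  have hww : w * (c ^ 2 + c) = PowerSeries.C (2 : F)⁻¹ := by
    have h : (PowerSeries.X : PowerSeries F) * (w * (c ^ 2 + c)) =
        PowerSeries.X * PowerSeries.C (2 : F)⁻¹ := by
      rw [← mul_assoc, ← hw, mul_comm PowerSeries.X, ← hc]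
      ring
    exact mul_left_cancel₀ PowerSeries.X_ne_zero h
  have hw0 : PowerSeries.constantCoeff w ≠ 0 := by
    intro h
    have h3 := congrArg PowerSeries.constantCoeff hww
    rw [map_mul, h, zero_mul, PowerSeries.constantCoeff_C] at h3
    exact inv_ne_zero h2 h3.symm
  refine ⟨G.rootMultiplicity 1, G.rootMultiplicity (-1), ?_, ?_, ?_⟩
  · have hne : (1 : F) ≠ -1 := by
      intro h
      apply h2
      have : (1 : F) + 1 = 0 := by
        nth_rewrite 2 [h]
        ring
      rw [← this]
      norm_num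
    have hcop : IsCoprime ((Polynomial.X - Polynomial.C (1 : F)) ^ G.rootMultiplicity 1)
        ((Polynomial.X - Polynomial.C (-1 : F)) ^ G.rootMultiplicity (-1)) := by
      apply IsCoprime.pow
      exact Polynomial.isCoprime_X_sub_C_of_isUnit_sub (IsUnit.mk0 _ (sub_ne_zero.mpr hne))
    have hdvd := hcop.mul_dvd (Polynomial.pow_rootMultiplicity_dvd G 1)
      (Polynomial.pow_rootMultiplicity_dvd G (-1))
    have h3 := Polynomial.natDegree_le_of_dvd hdvd hG
    rwa [Polynomial.natDegree_mul (pow_ne_zero _ (Polynomial.X_sub_C_ne_zero _))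
      (pow_ne_zero _ (Polynomial.X_sub_C_ne_zero _)), Polynomial.natDegree_pow,
      Polynomial.natDegree_pow, Polynomial.natDegree_X_sub_C, Polynomial.natDegree_X_sub_C,
      mul_one, mul_one] at h3
  · refine Ord.coeff_mult G hG 1 c w ?_ hw0
    rw [map_one, hw]
  · refine Ord.coeff_mult G hG (-1) (-c) (-w) ?_ ?_
    · rw [map_neg, map_one, mul_neg, ← hw]
      ring
    · rw [map_neg]
      exact neg_ne_zero.mpr hw0

end Pool.Agent.TH380.PN
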