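import Mathlib

/-! The polynomial `G(u) = ∑ κ (k, i) (u ^ 3 - u) ^ i u ^ (2 k)`. -/

set_option autoImplicit false

namespace Pool.Agent.TH380.PN

open Polynomial Finset

variable {F : Type} [Field F]

/-- the polynomial `G` -/
noncomputable def GG (N : ℕ) (κ : ℕ → ℕ → F) : F[X] :=
  ∑ k ∈ range 3, ∑ i ∈ range N, C (κ k i) * (X ^ 3 - X) ^ i * (X ^ 2) ^ k

theorem natDegree_cub : (X ^ 3 - X : F[X]).natDegree = 3 := by
  compute_degree!

theorem natDegree_GG_le {N n : ℕ} {κ : ℕ → ℕ → F} (h : ∀ k i, κ k i ≠ 0 → 3 * i + 2 * k ≤ n) :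
    (GG N κ).natDegree ≤ n := by
  unfold GG
  refine natDegree_sum_le_of_forall_le _ _ fun k _ => natDegree_sum_le_of_forall_le _ _ fun i _ => ?_
  by_cases h0 : κ k i = 0
  · simp [h0]
  · refine le_trans ?_ (h k i h0)
    refine natDegree_mul_le.trans ?_
    have h1 : (C (κ k i) * (X ^ 3 - X) ^ i).natDegree ≤ 3 * i := by
      refine natDegree_C_mul_le _ _ |>.trans ?_
      refine natDegree_pow_le.trans ?_
      rw [natDegree_cub, mul_comm]
    have h2 : ((X ^ 2 : F[X]) ^ k).natDegree ≤ 2 * k := by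
      rw [← pow_mul, natDegree_X_pow]
    omega

/-- the coefficient polynomials -/
noncomputable def AA (N : ℕ) (κ : ℕ → ℕ → F) (k : ℕ) : F[X] := ∑ i ∈ range N, monomial i (κ k i)

theorem GG_eq (N : ℕ) (κ : ℕ → ℕ → F) :
    GG N κ = ∑ k ∈ range 3, (AA N κ k).comp (X ^ 3 - X) * X ^ (2 * k) := by
  unfold GG AA
  refine sum_congr rfl fun k _ => ?_
  rw [Polynomial.sum_comp, sum_mul]
  refine sum_congr rfl fun i _ => ?_
  rw [monomial_comp, pow_mul]

theorem AA_coeff {N : ℕ} {κ : ℕ → ℕ → F} {k i : ℕ} (hi : i < N) : (AA N κ k).coeff i = κ k i := by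
  unfold AA
  rw [finsetSum_coeff, sum_eq_single i]
  · rw [coeff_monomial, if_pos rfl]
  · intro j _ hj
    rw [coeff_monomial, if_neg hj]
  · intro h
    exact absurd (mem_range.2 hi) h

theorem term_ne_zero {A : F[X]} (hA : A ≠ 0) (k : ℕ) : A.comp (X ^ 3 - X) * X ^ (2 * k) ≠ 0 := by
  apply mul_ne_zero
  · intro h
    rw [comp_eq_zero_iff] at h
    rcases h with h | ⟨_, h⟩
    · exact hA h
    · have := natDegree_cub (F := F)
      rw [h, natDegree_C] at this
      omega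
  · exact pow_ne_zero _ X_ne_zero

theorem term_natDegree {A : F[X]} (hA : A ≠ 0) (k : ℕ) :
    (A.comp (X ^ 3 - X) * X ^ (2 * k)).natDegree = 3 * A.natDegree + 2 * k := by
  have h0 : A.comp (X ^ 3 - X) ≠ 0 := by
    intro h
    exact term_ne_zero hA k (by rw [h, zero_mul])
  rw [natDegree_mul h0 (pow_ne_zero _ X_ne_zero), natDegree_comp, natDegree_cub, natDegree_X_pow,
    mul_comm]

theorem GG_ne_zero {N : ℕ} {κ : ℕ → ℕ → F} {k₀ i₀ : ℕ} (hk : k₀ < 3) (hi : i₀ < N)
    (h : κ k₀ i₀ ≠ 0) : GG N κ ≠ 0 := by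
  classical
  rw [GG_eq]
  -- the nonzero terms
  let S := (range 3).filter fun k => AA N κ k ≠ 0
  have hS : S.Nonempty := ⟨k₀, by
    rw [mem_filter]
    refine ⟨mem_range.2 hk, fun h0 => h ?_⟩
    rw [← AA_coeff (κ := κ) (k := k₀) hi, h0, coeff_zero]⟩
  obtain ⟨k, hkS, hmax⟩ := S.exists_max_image (fun k => 3 * (AA N κ k).natDegree + 2 * k) hS
  rw [mem_filter, mem_range] at hkS
  intro h0
  have h1 := congrArg (fun p : F[X] => p.coeff (3 * (AA N κ k).natDegree + 2 * k)) h0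
  simp only [finsetSum_coeff, coeff_zero] at h1
  rw [sum_eq_single k] at h1
  · rw [← term_natDegree hkS.2 k, coeff_natDegree, leadingCoeff_eq_zero] at h1
    exact term_ne_zero hkS.2 k h1
  · intro l hl hlk
    by_cases hA : AA N κ l = 0
    · rw [hA, zero_comp, zero_mul, coeff_zero]
    · apply coeff_eq_zero_of_natDegree_lt
      rw [term_natDegree hA]
      have h2 := hmax l (mem_filter.2 ⟨hl, hA⟩)
      rw [mem_range] at hl
      try simp only at h2
      have h3 := hkS.1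
      omega
  · intro h2
    exact absurd (mem_range.2 hkS.1) h2

end Pool.Agent.TH380.PN
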