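import Pool.Agent.TH380.PN.Bas
import Pool.Agent.TH380.PN.PolyG

/-! K3-5: the value of a reduced polynomial on the tube. -/

set_option autoImplicit false

namespace Pool.Agent.TH380.PN

open Pool.Agent.TH396.IN Finset

section
variable {F : Type} [Field F]

theorem inR_mo {τ s a : ℝ} {i : ℤ} {j : ℕ} (h1 : s * j + τ * i ≤ a) (h2 : s * j - (1 - τ) * i ≤ a) :
    InR τ s (mo F a i j) := by
  classical
  intro b k l h
  rw [co_mo] at h
  split_ifs at h with h'
  · obtain ⟨rfl, rfl, rfl⟩ := h'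
    exact ⟨h1, h2⟩
  · exact absurd rfl h

theorem inR_inc {τ s : ℝ} {r : HahnSeries ℝ F} (h : ∀ b < 0, r.coeff b = 0) : InR τ s (inc r) := by
  classical
  intro b k l hb
  rw [co_inc] at hb
  split_ifs at hb with h'
  · obtain ⟨rfl, rfl⟩ := h'
    have : 0 ≤ b := by
      by_contra hc
      exact hb (h b (not_le.1 hc))
    constructor <;> simpa using this
  · exact absurd rfl hb

theorem InR.add {τ s : ℝ} {u v : HB F} (hu : InR τ s u) (hv : InR τ s v) : InR τ s (u + v) := by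
  intro a i j h
  rw [co_add] at h
  by_cases h1 : co u a i j = 0
  · rw [h1, zero_add] at h
    exact hv a i j h
  · exact hu a i j h1

theorem InR.sub {τ s : ℝ} {u v : HB F} (hu : InR τ s u) (hv : InR τ s v) : InR τ s (u - v) := by
  intro a i j h
  rw [co_sub] at h
  by_cases h1 : co u a i j = 0
  · rw [h1, zero_sub, neg_ne_zero] at h
    exact hv a i j h
  · exact hu a i j h1

theorem InR.scl {τ s : ℝ} {u : HB F} (hu : InR τ s u) (r : F) : InR τ s (scl r * u) := by
  intro a i j h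
  rw [co_scl_mul] at h
  exact hu a i j (right_ne_zero_of_mul h)

theorem inR_xx {τ s : ℝ} (h1 : τ < 1) (h0 : 0 < τ) : InR τ s (xx F τ) := by
  apply inR_mo
  · simp
  · push_cast
    nlinarith

theorem inR_yy {τ s : ℝ} (h0 : 0 < τ) (h1 : τ < 1) : InR τ s (yy F τ s) := by
  apply InR.add
  · apply inR_mo
    · push_cast; nlinarith
    · push_cast; nlinarith
  · apply inR_mo
    · push_cast; nlinarith
    · push_cast; nlinarith

theorem inR_DD {τ s : ℝ} (h0 : 0 < τ) (h1 : τ < 1) : InR τ s (DD F τ s) :=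
  ((inR_xx h1 h0).sub (inR_yy h0 h1)).scl _

/-- the expansion of `evP` -/
theorem evP_eq (X2 X1 : HB F) {g : Polynomial (Polynomial (HahnSeries ℝ F))}
    (hg : ∀ k, 3 ≤ k → g.coeff k = 0) {N : ℕ} (hN : ∀ k i, N ≤ i → (g.coeff k).coeff i = 0) :
    evP X2 X1 g = ∑ k ∈ range 3, ∑ i ∈ range N, inc ((g.coeff k).coeff i) * X2 ^ i * X1 ^ k := by
  have hdeg : g.natDegree < 3 := by
    by_contra hc
    have h1 := hg _ (not_lt.1 hc)
    rw [Polynomial.coeff_natDegree, Polynomial.leadingCoeff_eq_zero] at h1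
    rw [h1, Polynomial.natDegree_zero] at hc
    omega
  have hdeg' : ∀ k, (g.coeff k).natDegree < N + 1 := by
    intro k
    by_contra hc
    have h1 := hN k (g.coeff k).natDegree (by omega)
    rw [Polynomial.coeff_natDegree, Polynomial.leadingCoeff_eq_zero] at h1
    rw [h1, Polynomial.natDegree_zero] at hc
    omega
  unfold evP
  rw [Polynomial.coe_eval₂RingHom, Polynomial.eval₂_eq_sum_range' _ hdeg]
  refine sum_congr rfl fun k _ => ?_
  rw [Polynomial.coe_eval₂RingHom, Polynomial.eval₂_eq_sum_range' _ (hdeg' k), sum_mul,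
    sum_range_succ, hN k N le_rfl, map_zero, zero_mul, zero_mul, add_zero]

theorem face_xx (τ : ℝ) (n : ℕ) : co (xx F τ) (τ * n) n 0 = if n = 1 then 1 else 0 := by
  classical
  unfold xx
  rw [co_mo]
  by_cases hn : n = 1
  · subst hn
    simp
  · rw [if_neg (fun h => hn (by exact_mod_cast h.2.1)), if_neg hn]

theorem face_yy (τ s : ℝ) (n : ℕ) : co (yy F τ s) (τ * n) n 0 = 0 := by
  classical
  unfold yy
  rw [co_add, co_mo, co_mo, if_neg, if_neg, add_zero]
  · rintro ⟨_, _, h⟩; omega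
  · rintro ⟨_, h, _⟩; omega

theorem face_xx' {τ : ℝ} (n : ℕ) : co (xx F τ) ((1 - τ) * n) (-n) 0 = 0 := by
  classical
  unfold xx
  rw [co_mo, if_neg]
  rintro ⟨_, h, _⟩; omega

theorem face_yy' (τ s : ℝ) (n : ℕ) :
    co (yy F τ s) ((1 - τ) * n) (-n) 0 = if n = 1 then 1 else 0 := by
  classical
  unfold yy
  rw [co_add, co_mo, co_mo, if_neg (c := _ ∧ _ ∧ (0 : ℕ) = 1), add_zero]
  · by_cases hn : n = 1
    · subst hn
      simp
    · rw [if_neg (fun h => hn (by have := h.2.1; omega)), if_neg hn]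
  · rintro ⟨_, _, h⟩; omega

/-- the numerical part -/
theorem num_bound {τ M α β a i : ℝ} (h0 : 0 < τ) (h1 : τ < 1) (hM : α + β ≤ M)
    (ha : a ≤ τ * α) (hb : a ≤ (1 - τ) * β) (hi : τ * i ≤ a) (hi' : -((1 - τ) * i) ≤ a) :
    -(τ * M) ≤ i ∧ i ≤ (1 - τ) * M := by
  have e1 : i ≤ α := by
    by_contra hc
    push Not at hc
    have := mul_lt_mul_of_pos_left hc h0
    linarith
  have e2 : -i ≤ β := by
    by_contra hc
    push Not at hc
    have := mul_lt_mul_of_pos_left hc (sub_pos.2 h1)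
    linarith
  constructor
  · have h3 : τ * (-i) ≤ τ * (M - α) := mul_le_mul_of_nonneg_left (by linarith) h0.le
    nlinarith
  · have h3 : (1 - τ) * i ≤ (1 - τ) * (M - β) :=
      mul_le_mul_of_nonneg_left (by linarith) (by linarith)
    nlinarith

end

/-- the normalised case -/
theorem red_aux (hface : S_face) (hord : S_ord) {F : Type} [Field F] (h2 : (2 : F) ≠ 0) {τ s : ℝ}
    (h0 : 0 < τ) (h1 : τ < 1) (hs : 0 < s) {c : HB F} (hc : Root τ s c) {D : ℝ} (hD : 3 * D < s)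
    {N : ℕ} (κ : ℕ → ℕ → HahnSeries ℝ F) (hκ : ∀ k i, ∀ b < 0, (κ k i).coeff b = 0)
    {k₀ i₀ : ℕ} (hk : k₀ < 3) (hi : i₀ < N) (hne : (κ k₀ i₀).coeff 0 ≠ 0)
    (hw : ∀ k i, κ k i ≠ 0 → (i : ℝ) + k ≤ D) :
    ∃ a : ℝ, (∀ b < a, (∑ k ∈ range 3, ∑ i ∈ range N,
        inc (κ k i) * DD F τ s ^ i * (c ^ 2) ^ k).coeff b = 0) ∧
      (∑ k ∈ range 3, ∑ i ∈ range N, inc (κ k i) * DD F τ s ^ i * (c ^ 2) ^ k).coeff a ≠ 0 ∧
      ∀ (i : ℤ) (j : ℕ), co (∑ k ∈ range 3, ∑ i ∈ range N,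
        inc (κ k i) * DD F τ s ^ i * (c ^ 2) ^ k) a i j ≠ 0 →
        j = 0 ∧ -(τ * (3 * D)) ≤ i ∧ (i : ℝ) ≤ (1 - τ) * (3 * D) := by
  classical
  obtain ⟨R, φ, ψ, hR, hφ, hψ⟩ := hface F τ s h0 h1 hs
  -- elements of the subring
  let cR : R := ⟨c, (hR c).2 hc.inR⟩
  let dR : R := ⟨DD F τ s, (hR _).2 (inR_DD h0 h1)⟩
  let wR : R := ⟨scl (2 : F)⁻¹ * (xx F τ + yy F τ s),
    (hR _).2 (((inR_xx h1 h0).add (inR_yy h0 h1)).scl _)⟩
  let kR : ℕ → ℕ → R := fun k i => ⟨inc (κ k i), (hR _).2 (inR_inc (hκ k i))⟩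
  let U : R := ∑ k ∈ range 3, ∑ i ∈ range N, kR k i * dR ^ i * (cR ^ 2) ^ k
  have hU : (U : HB F) = ∑ k ∈ range 3, ∑ i ∈ range N,
      inc (κ k i) * DD F τ s ^ i * (c ^ 2) ^ k := by
    simp only [U, kR, dR, cR]
    push_cast
    rfl
  rw [← hU]
  -- the two faces
  have hcR : cR ^ 3 - cR = wR := Subtype.ext hc.eq
  have hφw : φ wR = PowerSeries.C (2 : F)⁻¹ * PowerSeries.X := by
    ext n
    show PowerSeries.coeff n (φ wR) = _
    rw [hφ]
    show co (scl (2 : F)⁻¹ * (xx F τ + yy F τ s)) (τ * n) n 0 = _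
    rw [co_scl_mul, co_add, face_xx, face_yy, PowerSeries.coeff_C_mul, PowerSeries.coeff_X, add_zero]
  have hφd : φ dR = PowerSeries.C (2 : F)⁻¹ * PowerSeries.X := by
    ext n
    rw [hφ]
    show co (scl (2 : F)⁻¹ * (xx F τ - yy F τ s)) (τ * n) n 0 = _
    rw [co_scl_mul, co_sub, face_xx, face_yy, PowerSeries.coeff_C_mul, PowerSeries.coeff_X, sub_zero]
  have hψw : ψ wR = PowerSeries.C (2 : F)⁻¹ * PowerSeries.X := by
    ext n
    rw [hψ]
    show co (scl (2 : F)⁻¹ * (xx F τ + yy F τ s)) ((1 - τ) * n) (-n) 0 = _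
    rw [co_scl_mul, co_add, face_xx', face_yy', PowerSeries.coeff_C_mul, PowerSeries.coeff_X,
      zero_add]
  have hψd : ψ dR = -(PowerSeries.C (2 : F)⁻¹ * PowerSeries.X) := by
    ext n
    rw [hψ]
    show co (scl (2 : F)⁻¹ * (xx F τ - yy F τ s)) ((1 - τ) * n) (-n) 0 = _
    rw [co_scl_mul, co_sub, face_xx', face_yy', map_neg, PowerSeries.coeff_C_mul,
      PowerSeries.coeff_X, zero_sub, mul_neg]
  have hφk : ∀ k i, φ (kR k i) = PowerSeries.C ((κ k i).coeff 0) := by
    intro k i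
    ext n
    rw [hφ]
    show co (inc (κ k i)) (τ * n) n 0 = _
    rw [co_inc, PowerSeries.coeff_C]
    by_cases hn : n = 0
    · subst hn; simp
    · rw [if_neg (fun h => hn (by exact_mod_cast h.1)), if_neg hn]
  have hψk : ∀ k i, ψ (kR k i) = PowerSeries.C ((κ k i).coeff 0) := by
    intro k i
    ext n
    rw [hψ]
    show co (inc (κ k i)) ((1 - τ) * n) (-n) 0 = _
    rw [co_inc, PowerSeries.coeff_C]
    by_cases hn : n = 0
    · subst hn; simp
    · rw [if_neg (fun h => hn (by have := h.1; omega)), if_neg hn]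
  set κ' : ℕ → ℕ → F := fun k i => (κ k i).coeff 0 with hκ'
  have hφc : (φ cR) ^ 3 - φ cR = PowerSeries.C (2 : F)⁻¹ * PowerSeries.X := by
    rw [← map_pow, ← map_sub, hcR, hφw]
  have hψc : (ψ cR) ^ 3 - ψ cR = PowerSeries.C (2 : F)⁻¹ * PowerSeries.X := by
    rw [← map_pow, ← map_sub, hcR, hψw]
  have hφc0 : PowerSeries.coeff 0 (φ cR) = 1 := by
    rw [hφ]
    have := hc.one
    simpa using this
  have hψc0 : PowerSeries.coeff 0 (ψ cR) = 1 := by
    rw [hψ]
    have := hc.one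
    simpa using this
  have hev : ∀ z : PowerSeries F, (GG N κ').eval₂ PowerSeries.C z =
      ∑ k ∈ range 3, ∑ i ∈ range N, PowerSeries.C (κ' k i) * (z ^ 3 - z) ^ i * (z ^ 2) ^ k := by
    intro z
    unfold GG
    rw [Polynomial.eval₂_finsetSum]
    refine sum_congr rfl fun k _ => ?_
    rw [Polynomial.eval₂_finsetSum]
    refine sum_congr rfl fun i _ => ?_
    simp [Polynomial.eval₂_mul, Polynomial.eval₂_pow, Polynomial.eval₂_sub]
  have hφU : φ U = (GG N κ').eval₂ PowerSeries.C (φ cR) := by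
    rw [hev, hφc]
    simp only [U, map_sum, map_mul, map_pow, hφk, hφd, hκ']
  have hψU : ψ U = (GG N κ').eval₂ PowerSeries.C (-ψ cR) := by
    rw [hev]
    have e1 : (-ψ cR) ^ 3 - -ψ cR = -(PowerSeries.C (2 : F)⁻¹ * PowerSeries.X) := by
      rw [← hψc]; ring
    rw [e1]
    simp only [U, map_sum, map_mul, map_pow, hψk, hψd, hκ', even_two, Even.neg_pow]
  -- the polynomial
  have hw' : ∀ k i, κ' k i ≠ 0 → (i : ℝ) + k ≤ D := by
    intro k i h
    apply hw
    intro h'
    apply h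
    simp only [hκ', h', HahnSeries.coeff_zero]
  have hD0 : 0 ≤ D := by
    have := hw' k₀ i₀ hne
    have h3 : (0 : ℝ) ≤ i₀ := Nat.cast_nonneg _
    have h4 : (0 : ℝ) ≤ k₀ := Nat.cast_nonneg _
    linarith
  have hGdeg : ((GG N κ').natDegree : ℝ) ≤ 3 * D := by
    have h3 : (GG N κ').natDegree ≤ ⌊3 * D⌋₊ := by
      apply natDegree_GG_le
      intro k i h
      apply Nat.le_floor
      have h4 := hw' k i h
      have h5 : (0 : ℝ) ≤ k := Nat.cast_nonneg _
      push_cast
      linarith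
    calc ((GG N κ').natDegree : ℝ) ≤ (⌊3 * D⌋₊ : ℝ) := by exact_mod_cast h3
      _ ≤ 3 * D := Nat.floor_le (by positivity)
  have hG0 : GG N κ' ≠ 0 := GG_ne_zero hk hi hne
  have hcc : ψ cR = φ cR := by
    have e1 : (ψ cR - φ cR) * ((ψ cR) ^ 2 + ψ cR * φ cR + (φ cR) ^ 2 - 1) = 0 := by
      have : (ψ cR) ^ 3 - ψ cR - ((φ cR) ^ 3 - φ cR) = 0 := by rw [hφc, hψc, sub_self]
      rw [← this]
      ring
    rcases mul_eq_zero.1 e1 with h | h
    · exact sub_eq_zero.1 h
    · exfalso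
      have h3 := congrArg (PowerSeries.constantCoeff (R := F)) h
      have e2 : PowerSeries.constantCoeff (φ cR) = 1 := by
        rw [← PowerSeries.coeff_zero_eq_constantCoeff_apply, hφc0]
      have e3 : PowerSeries.constantCoeff (ψ cR) = 1 := by
        rw [← PowerSeries.coeff_zero_eq_constantCoeff_apply, hψc0]
      rw [map_sub, map_add, map_add, map_pow, map_mul, map_pow, e2, e3, map_one, map_zero] at h3
      apply h2
      rw [← h3]
      ring
  obtain ⟨α, β, hαβ, hα, hβ⟩ := hord F h2 (φ cR) hφc hφc0 (GG N κ') hG0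
  rw [← hφU, hφ] at hα
  rw [← hcc, ← hψU, hψ] at hβ
  have hUne : (U : HB F) ≠ 0 := by
    intro h
    rw [h] at hα
    exact hα (by simp [co])
  have hUR : InR τ s (U : HB F) := (hR _).1 U.2
  have hle : ∀ (a : ℝ) (i : ℤ) (j : ℕ), co (U : HB F) a i j ≠ 0 → (U : HB F).order ≤ a := by
    intro a i j h
    apply HahnSeries.order_le_of_coeff_ne_zero
    intro h'
    apply h
    unfold co
    rw [h']
    rfl
  have ha1 := hle _ _ _ hα
  have ha2 := hle _ _ _ hβ
  have hαβ' : (α : ℝ) + β ≤ 3 * D := by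
    refine le_trans ?_ hGdeg
    exact_mod_cast hαβ
  refine ⟨(U : HB F).order, fun b hb => HahnSeries.coeff_eq_zero_of_lt_order hb,
    fun h => hUne (HahnSeries.coeff_order_eq_zero.1 h), ?_⟩
  intro i j hij
  obtain ⟨h3, h4⟩ := hUR _ i j hij
  have hj0 : (0 : ℝ) ≤ j := Nat.cast_nonneg _
  have hβ0 : (0 : ℝ) ≤ β := Nat.cast_nonneg _
  have hα0 : (0 : ℝ) ≤ α := Nat.cast_nonneg _
  have hsj : s * j ≤ (U : HB F).order := by nlinarith
  have hjz : j = 0 := by
    by_contra hj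
    have : (1 : ℝ) ≤ j := by exact_mod_cast Nat.one_le_iff_ne_zero.2 hj
    have h5 : s ≤ s * j := by nlinarith
    have h6 : τ * (α : ℝ) ≤ α := by nlinarith
    linarith
  subst hjz
  refine ⟨rfl, ?_⟩
  simp only [Nat.cast_zero, mul_zero, zero_add, zero_sub] at h3 h4
  exact num_bound h0 h1 hαβ' ha1 ha2 h3 h4

theorem red (hface : S_face) (hord : S_ord) : S_red := by
  intro F _ h2 τ s h0 h1 hs c hc D g hD hg hg3 hW
  classical
  -- a bound for the degrees
  obtain ⟨N, hN⟩ : ∃ N : ℕ, ∀ k i, N ≤ i → (g.coeff k).coeff i = 0 := by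
    refine ⟨⌈D⌉₊ + 1, fun k i hi => ?_⟩
    by_contra h
    have h3 := hW k i h
    have h4 : D ≤ ⌈D⌉₊ := Nat.le_ceil D
    have h5 : ((⌈D⌉₊ + 1 : ℕ) : ℝ) ≤ i := by exact_mod_cast hi
    have h6 : (0 : ℝ) ≤ k := Nat.cast_nonneg _
    push_cast at h5
    linarith
  -- the least order
  let S := ((range 3) ×ˢ (range N)).filter fun p => (g.coeff p.1).coeff p.2 ≠ 0
  have hS : S.Nonempty := by
    by_contra hc'
    rw [Finset.not_nonempty_iff_eq_empty, Finset.filter_eq_empty_iff] at hc'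
    apply hg
    ext1 k
    ext1 i
    rw [Polynomial.coeff_zero, Polynomial.coeff_zero]
    by_cases hk : 3 ≤ k
    · rw [hg3 k hk, Polynomial.coeff_zero]
    by_cases hi : N ≤ i
    · exact hN k i hi
    have h3 := hc' (x := (k, i)) (by rw [mem_product, mem_range, mem_range]; exact ⟨not_le.1 hk, not_le.1 hi⟩)
    simpa using h3
  obtain ⟨p, hpS, hmin⟩ := S.exists_min_image (fun p => ((g.coeff p.1).coeff p.2).order) hS
  rw [mem_filter, mem_product, mem_range, mem_range] at hpS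
  set b0 : ℝ := ((g.coeff p.1).coeff p.2).order with hb0
  let κ : ℕ → ℕ → HahnSeries ℝ F := fun k i =>
    HahnSeries.single (-b0) 1 * (g.coeff k).coeff i
  have hκc : ∀ k i b, (κ k i).coeff b = ((g.coeff k).coeff i).coeff (b + b0) := by
    intro k i b
    simp only [κ]
    rw [HahnSeries.coeff_single_mul, one_mul, sub_neg_eq_add]
  have hback : ∀ k i, HahnSeries.single b0 1 * κ k i = (g.coeff k).coeff i := by
    intro k i
    simp only [κ]
    rw [← mul_assoc, HahnSeries.single_mul_single, add_neg_cancel, one_mul]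
    exact one_mul _
  obtain ⟨a, ha1, ha2, ha3⟩ := red_aux hface hord h2 h0 h1 hs hc hD (N := N) κ (by
      intro k i b hb
      rw [hκc]
      by_cases hz : (g.coeff k).coeff i = 0
      · rw [hz, HahnSeries.coeff_zero]
      · apply HahnSeries.coeff_eq_zero_of_lt_order
        have hk : k < 3 := by
          by_contra hk
          exact hz (by rw [hg3 k (not_lt.1 hk), Polynomial.coeff_zero])
        have hi : i < N := by
          by_contra hi
          exact hz (hN k i (not_lt.1 hi))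
        have h3 := hmin (k, i) (by
          rw [mem_filter, mem_product, mem_range, mem_range]
          exact ⟨⟨hk, hi⟩, hz⟩)
        simp only at h3
        linarith)
    (k₀ := p.1) (i₀ := p.2) hpS.1.1 hpS.1.2 (by
      rw [hκc, zero_add, hb0]
      intro h
      exact hpS.2 (HahnSeries.coeff_order_eq_zero.1 h))
    (by
      intro k i h
      apply hW
      intro h'
      apply h
      simp only [κ, h', mul_zero])
  have hsum : evP (DD F τ s) (c ^ 2) g = inc (HahnSeries.single b0 1) *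
      ∑ k ∈ range 3, ∑ i ∈ range N, inc (κ k i) * DD F τ s ^ i * (c ^ 2) ^ k := by
    rw [evP_eq _ _ hg3 hN, mul_sum]
    refine sum_congr rfl fun k _ => ?_
    rw [mul_sum]
    refine sum_congr rfl fun i _ => ?_
    rw [← hback k i, map_mul]
    ring
  have hco : ∀ b i j, co (evP (DD F τ s) (c ^ 2) g) b i j =
      co (∑ k ∈ range 3, ∑ i ∈ range N, inc (κ k i) * DD F τ s ^ i * (c ^ 2) ^ k) (b - b0) i j := by
    intro b i j
    rw [hsum, co_inc_single_mul, one_mul]
  refine ⟨a + b0, ?_, ?_, ?_⟩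
  · intro b hb
    ext ⟨i, j⟩
    have h3 := hco b i j
    unfold co at h3
    rw [h3, ha1 (b - b0) (by linarith)]
  · intro h
    apply ha2
    ext ⟨i, j⟩
    have h3 := hco (a + b0) i j
    unfold co at h3
    rw [h, add_sub_cancel_right] at h3
    exact h3.symm
  · intro i j hij
    rw [hco, add_sub_cancel_right] at hij
    exact ha3 i j hij

end Pool.Agent.TH380.PN
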