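import Pool.Agent.TH380.PN.K3Defs

/-! The root of `c ^ 3 - c = (xx + yy) / 2` in Hahn series (K3-1; after helper928's
`Pool.Agent.TH587.NG.Root`). -/

set_option autoImplicit false

namespace Pool.Agent.TH380.PN

open Finset Pool.Agent.TH396.IN

variable {F : Type} [Field F]

namespace RootP

open PowerSeries in
/-- contractions of the ring of formal power series have fixed points -/
theorem exists_fixed (T : PowerSeries F → PowerSeries F)
    (hT : ∀ a b, X * (a - b) ∣ T a - T b) : ∃ u, T u = u := by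
  set s : ℕ → PowerSeries F := fun k => T^[k] 0 with hs
  have hsucc : ∀ k, s (k + 1) = T (s k) := fun k => Function.iterate_succ_apply' T k 0
  have h1 : ∀ k, (X : PowerSeries F) ^ k ∣ s (k + 1) - s k := by
    intro k
    induction k with
    | zero => simp
    | succ k ih =>
      rw [hsucc (k + 1), hsucc k]
      refine dvd_trans ?_ (hT _ _)
      rw [pow_succ']
      refine mul_dvd_mul_left _ ?_
      rw [← hsucc k]
      exact ih
  have h2 : ∀ k m, k ≤ m → (X : PowerSeries F) ^ k ∣ s m - s k := by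
    intro k m hkm
    induction m, hkm using Nat.le_induction with
    | base => simp
    | succ m hkm ih =>
      have e : s (m + 1) - s k = (s (m + 1) - s m) + (s m - s k) := by ring
      rw [e]
      exact dvd_add (dvd_trans (pow_dvd_pow _ hkm) (h1 m)) ih
  set u : PowerSeries F := PowerSeries.mk (fun n => coeff n (s (n + 1))) with hu
  have h3 : ∀ k, (X : PowerSeries F) ^ k ∣ u - s k := by
    intro k
    rw [X_pow_dvd_iff]
    intro m hm
    rw [map_sub, hu, coeff_mk]
    have h4 := (X_pow_dvd_iff.1 (h2 (m + 1) k (by omega))) m (by omega)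
    rw [map_sub] at h4
    rw [sub_eq_zero] at h4 ⊢
    exact h4.symm
  refine ⟨u, ?_⟩
  ext k
  have h5 : (X : PowerSeries F) ^ (k + 1) ∣ T u - u := by
    have e : T u - u = (T u - T (s k)) - (u - s (k + 1)) := by rw [hsucc]; ring
    rw [e]
    refine dvd_sub (dvd_trans ?_ (hT _ _)) (h3 _)
    rw [pow_succ']
    exact mul_dvd_mul_left _ (h3 k)
  have h6 := (X_pow_dvd_iff.1 h5) k (by omega)
  rw [map_sub, sub_eq_zero] at h6
  exact h6

open PowerSeries in
/-- `f = 1 + X u` satisfies `f ^ 3 - f = X` -/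
theorem exists_ps (h2 : (2 : F) ≠ 0) :
    ∃ u : PowerSeries F, (1 + X * u) ^ 3 - (1 + X * u) = X := by
  have hC : (C (1 / 2 : F)) * (2 : PowerSeries F) = 1 := by
    have : (2 : PowerSeries F) = C (2 : F) := (map_ofNat C 2).symm
    rw [this, ← map_mul, one_div, inv_mul_cancel₀ h2, map_one]
  obtain ⟨u, hu⟩ := exists_fixed
    (fun u : PowerSeries F => C (1 / 2 : F) * (1 - 3 * X * u ^ 2 - X ^ 2 * u ^ 3)) (by
      intro a b
      refine ⟨-(C (1 / 2 : F) * (3 * (a + b) + X * (a ^ 2 + a * b + b ^ 2))), ?_⟩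
      ring)
  have hu' : C (1 / 2 : F) * (1 - 3 * X * u ^ 2 - X ^ 2 * u ^ 3) = u := hu
  refine ⟨u, ?_⟩
  have h1 : 2 * u + 3 * X * u ^ 2 + X ^ 2 * u ^ 3 = 1 := by
    have h3 : 2 * u = 1 - 3 * X * u ^ 2 - X ^ 2 * u ^ 3 := by
      calc 2 * u = 2 * (C (1 / 2 : F) * (1 - 3 * X * u ^ 2 - X ^ 2 * u ^ 3)) := by
            rw [hu']
        _ = (C (1 / 2 : F) * 2) * (1 - 3 * X * u ^ 2 - X ^ 2 * u ^ 3) := by ring
        _ = _ := by rw [hC, one_mul]
    rw [h3]; ring
  linear_combination X * h1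

/-! ## supports -/

theorem lp_mul_ne {x y : LP F ℕ} {m : ℤ × ℕ} (h : (x * y).coeff m ≠ 0) :
    ∃ m₁ m₂, m₁ + m₂ = m ∧ x.coeff m₁ ≠ 0 ∧ y.coeff m₂ ≠ 0 := by
  classical
  by_contra hcon
  push Not at hcon
  apply h
  rw [AddMonoidAlgebra.coeff_mul, Finsupp.sum]
  refine Finset.sum_eq_zero fun m₁ h1 => ?_
  rw [Finsupp.sum]
  refine Finset.sum_eq_zero fun m₂ h2 => ?_
  rw [Finsupp.mem_support_iff] at h1 h2
  split_ifs with he
  · exact absurd (hcon m₁ m₂ he h1) h2
  · rfl

theorem co_mul_ne {u v : HB F} {a : ℝ} {i : ℤ} {j : ℕ} (h : co (u * v) a i j ≠ 0) :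
    ∃ (p q : ℝ) (i₁ i₂ : ℤ) (j₁ j₂ : ℕ), p + q = a ∧ i₁ + i₂ = i ∧ j₁ + j₂ = j ∧
      co u p i₁ j₁ ≠ 0 ∧ co v q i₂ j₂ ≠ 0 := by
  classical
  by_contra hcon
  apply h
  unfold co
  rw [HahnSeries.coeff_mul]
  have h2 : ∀ s : Finset (ℝ × ℝ), (∀ q ∈ s, q.1 + q.2 = a) →
      (∑ q ∈ s, u.coeff q.1 * v.coeff q.2).coeff (i, j) = 0 := by
    intro s
    induction s using Finset.induction_on with
    | empty => intro _; simp
    | insert q s hq ih =>
      intro hs
      rw [Finset.sum_insert hq, AddMonoidAlgebra.coeff_add, Finsupp.add_apply,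
        ih fun q hq => hs q (Finset.mem_insert_of_mem hq), add_zero]
      by_contra h3
      obtain ⟨m₁, m₂, h4, h5, h6⟩ := lp_mul_ne h3
      rw [Prod.ext_iff] at h4
      exact hcon ⟨q.1, q.2, m₁.1, m₂.1, m₁.2, m₂.2, hs q (Finset.mem_insert_self _ _),
        h4.1, h4.2, h5, h6⟩
  apply h2
  intro q hq
  rw [Finset.mem_antidiagonal] at hq
  exact hq.2.2

theorem co_add (u v : HB F) (a : ℝ) (i : ℤ) (j : ℕ) :
    co (u + v) a i j = co u a i j + co v a i j := by
  simp [co]

theorem co_mo_ne {b a : ℝ} {k i : ℤ} {l j : ℕ} (h : co (mo F b k l) a i j ≠ 0) :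
    a = b ∧ i = k ∧ j = l := by
  classical
  unfold co mo at h
  by_cases he : a = b
  · subst he
    rw [HahnSeries.coeff_single_same] at h
    by_cases h1 : ((k, l) : ℤ × ℕ) = (i, j)
    · rw [Prod.ext_iff] at h1
      exact ⟨rfl, h1.1.symm, h1.2.symm⟩
    · exfalso
      apply h
      simp [h1]
  · exfalso
    apply h
    rw [HahnSeries.coeff_single_of_ne he]
    simp

theorem co_scl_ne {c : F} {a : ℝ} {i : ℤ} {j : ℕ} (h : co (scl c) a i j ≠ 0) :
    a = 0 ∧ i = 0 ∧ j = 0 := by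
  classical
  have h1 : (scl c : HB F).coeff a = AddMonoidAlgebra.single (0 : ℤ × ℕ)
      ((HahnSeries.C c : HahnSeries ℝ F).coeff a) := rfl
  unfold co at h
  rw [h1] at h
  by_cases he : a = 0
  · refine ⟨he, ?_⟩
    by_cases h2 : (0 : ℤ × ℕ) = (i, j)
    · rw [Prod.ext_iff] at h2
      exact ⟨h2.1.symm, h2.2.symm⟩
    · exfalso
      apply h
      simp [h2]
  · exfalso
    apply h
    rw [HahnSeries.C_apply, HahnSeries.coeff_single_of_ne he]
    simp

theorem co_one_ne {a : ℝ} {i : ℤ} {j : ℕ} (h : co (1 : HB F) a i j ≠ 0) :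
    a = 0 ∧ i = 0 ∧ j = 0 := by
  have h1 : (1 : HB F) = scl (1 : F) := by
    unfold scl
    rw [map_one, map_one]
  rw [h1] at h
  exact co_scl_ne h

theorem co_one : co (1 : HB F) 0 0 0 = 1 := by
  unfold co
  rw [HahnSeries.coeff_one, if_pos rfl, AddMonoidAlgebra.one_def]
  show (Finsupp.single (0 : ℤ × ℕ) (1 : F)) (0 : ℤ × ℕ) = 1
  exact Finsupp.single_eq_same

variable {τ s : ℝ}

theorem inR_mul {u v : HB F} (hu : InR τ s u) (hv : InR τ s v) : InR τ s (u * v) := by
  intro a i j h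
  obtain ⟨p, q, i₁, i₂, j₁, j₂, rfl, rfl, rfl, h1, h2⟩ := co_mul_ne h
  obtain ⟨a1, a2⟩ := hu _ _ _ h1
  obtain ⟨b1, b2⟩ := hv _ _ _ h2
  push_cast
  constructor <;> nlinarith

theorem inR_add {u v : HB F} (hu : InR τ s u) (hv : InR τ s v) : InR τ s (u + v) := by
  intro a i j h
  rw [co_add] at h
  by_cases h1 : co u a i j = 0
  · rw [h1, zero_add] at h
    exact hv a i j h
  · exact hu a i j h1

theorem inR_scl (c : F) : InR τ s (scl c) := by
  intro a i j h
  obtain ⟨rfl, rfl, rfl⟩ := co_scl_ne h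
  simp

theorem inR_one : InR τ s (1 : HB F) := by
  intro a i j h
  obtain ⟨rfl, rfl, rfl⟩ := co_one_ne h
  simp

theorem inR_pow {u : HB F} (hu : InR τ s u) (n : ℕ) : InR τ s (u ^ n) := by
  induction n with
  | zero => rw [pow_zero]; exact inR_one
  | succ n ih =>
    rw [pow_succ]
    exact inR_mul ih hu

theorem inR_xx (h0 : 0 < τ) (h1 : τ < 1) : InR τ s (xx F τ) := by
  intro a i j h
  obtain ⟨rfl, rfl, rfl⟩ := co_mo_ne h
  push_cast
  constructor <;> linarith

theorem inR_yy (h0 : 0 < τ) (h1 : τ < 1) : InR τ s (yy F τ s) := by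
  apply inR_add
  · intro a i j h
    obtain ⟨rfl, rfl, rfl⟩ := co_mo_ne h
    push_cast
    constructor <;> linarith
  · intro a i j h
    obtain ⟨rfl, rfl, rfl⟩ := co_mo_ne h
    push_cast
    constructor <;> linarith

/-- the series `(xx + yy) / 2` -/
noncomputable def WW (F : Type) [Field F] (τ s : ℝ) : HB F :=
  scl (2 : F)⁻¹ * (xx F τ + yy F τ s)

theorem inR_WW (h0 : 0 < τ) (h1 : τ < 1) : InR τ s (WW F τ s) :=
  inR_mul (inR_scl _) (inR_add (inR_xx h0 h1) (inR_yy h0 h1))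

theorem pos_WW (h0 : 0 < τ) (h1 : τ < 1) (hs : 0 < s) {a : ℝ} {i : ℤ} {j : ℕ}
    (h : co (WW F τ s) a i j ≠ 0) : 0 < a := by
  obtain ⟨p, q, i₁, i₂, j₁, j₂, rfl, -, -, h2, h3⟩ := co_mul_ne h
  obtain ⟨rfl, -, -⟩ := co_scl_ne h2
  rw [zero_add]
  rw [co_add] at h3
  by_cases h4 : co (xx F τ) q i₂ j₂ = 0
  · rw [h4, zero_add] at h3
    unfold yy at h3
    rw [co_add] at h3
    by_cases h5 : co (mo F (1 - τ) (-1) 0) q i₂ j₂ = 0
    · rw [h5, zero_add] at h3
      obtain ⟨rfl, -, -⟩ := co_mo_ne h3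
      linarith
    · obtain ⟨rfl, -, -⟩ := co_mo_ne h5
      linarith
  · obtain ⟨rfl, -, -⟩ := co_mo_ne h4
    exact h0

theorem orderTop_pos {W : HB F} (h : ∀ (a : ℝ) (i : ℤ) (j : ℕ), co W a i j ≠ 0 → 0 < a) :
    0 < W.orderTop := by
  by_cases hW : W = 0
  · rw [hW, HahnSeries.orderTop_zero]
    exact WithTop.top_pos
  · refine HahnSeries.zero_lt_orderTop_of_order ?_
    by_contra hcon
    apply HahnSeries.coeff_order_eq_zero.not.2 hW
    ext ⟨i, j⟩
    by_contra h2
    exact hcon (h _ i j h2)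

/-! ## values of power series -/

/-- the value of a power series with coefficients in `F` -/
noncomputable def val (W : HB F) : PowerSeries F →+* HB F where
  toFun f := PowerSeries.heval W (PowerSeries.map (algebraMap F (LP F ℕ)) f)
  map_one' := by
    rw [map_one]
    exact map_one (PowerSeries.heval W)
  map_mul' f g := by
    rw [map_mul]
    exact PowerSeries.heval_mul W
  map_zero' := by
    rw [map_zero]
    exact map_zero (PowerSeries.heval W)
  map_add' f g := by
    rw [map_add]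
    exact map_add (PowerSeries.heval W) _ _

theorem coeff_val {W : HB F} (hW : 0 < W.orderTop) (f : PowerSeries F) (a : ℝ) :
    (val W f).coeff a =
      ∑ᶠ n, algebraMap F (LP F ℕ) (PowerSeries.coeff n f) * (W ^ n).coeff a := by
  change (PowerSeries.heval W (PowerSeries.map (algebraMap F (LP F ℕ)) f)).coeff a = _
  rw [PowerSeries.coeff_heval]
  refine finsum_congr fun n => ?_
  rw [HahnSeries.SummableFamily.coeff_apply,
    HahnSeries.SummableFamily.powerSeriesFamily_of_orderTop_pos hW, PowerSeries.coeff_map,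
    HahnSeries.coeff_smul, smul_eq_mul]

theorem inR_val {W : HB F} (hW : 0 < W.orderTop) (h : InR τ s W) (f : PowerSeries F) :
    InR τ s (val W f) := by
  intro e i j hne
  by_contra hcon
  apply hne
  unfold co
  rw [coeff_val hW]
  refine finsum_induction (fun u : LP F ℕ => u.coeff (i, j) = 0) (by simp)
    (fun x y hx hy => ?_) fun n => ?_
  · simp only [AddMonoidAlgebra.coeff_add, Finsupp.add_apply, hx, hy, add_zero]
  · have h1 : ((W ^ n).coeff e).coeff (i, j) = 0 := by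
      by_contra h2
      exact hcon (inR_pow h n e i j h2)
    rw [← Algebra.smul_def]
    simp [h1]

theorem val_X {W : HB F} (hW : 0 < W.orderTop) : val W PowerSeries.X = W := by
  change PowerSeries.heval W (PowerSeries.map (algebraMap F (LP F ℕ)) PowerSeries.X) = _
  rw [PowerSeries.map_X, PowerSeries.heval_X W hW]

theorem inR_nonneg (h0 : 0 < τ) (h1 : τ < 1) (hs : 0 < s) {u : HB F} (hu : InR τ s u) {a : ℝ}
    {i : ℤ} {j : ℕ} (h : co u a i j ≠ 0) : 0 ≤ a := by
  obtain ⟨h2, h3⟩ := hu a i j h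
  have hj : (0 : ℝ) ≤ s * j := by positivity
  have h4 := mul_le_mul_of_nonneg_left h2 (show 0 ≤ 1 - τ by linarith)
  have h5 := mul_le_mul_of_nonneg_left h3 h0.le
  nlinarith

end RootP

open RootP in
theorem exists_root : S_root := by
  intro F _ h2 τ s h0 h1 hs
  have hpos : ∀ (a : ℝ) (i : ℤ) (j : ℕ), co (WW F τ s) a i j ≠ 0 → 0 < a :=
    fun a i j h => pos_WW h0 h1 hs h
  have hW := orderTop_pos hpos
  have hR : InR τ s (WW F τ s) := inR_WW h0 h1
  obtain ⟨u, hu⟩ := exists_ps (F := F) h2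
  refine ⟨val (WW F τ s) (1 + PowerSeries.X * u), inR_val hW hR _, ?_, ?_⟩
  · rw [← map_pow, ← map_sub, hu, val_X hW]
    rfl
  · rw [map_add, map_one, map_mul, val_X hW, co_add, co_one]
    have h3 : co (WW F τ s * val (WW F τ s) u) 0 0 0 = 0 := by
      by_contra h4
      obtain ⟨p, q, i₁, i₂, j₁, j₂, h5, -, -, h6, h7⟩ := co_mul_ne h4
      have h8 := hpos _ _ _ h6
      have h9 := inR_nonneg h0 h1 hs (inR_val hW hR u) h7
      linarith
    rw [h3, add_zero]

end Pool.Agent.TH380.PN
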