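import Pool.Agent.TH380.PN.K3Defs

/-! K3-7: the root `c` is a unit (helper952 for helper380). -/

set_option autoImplicit false

namespace Pool.Agent.TH380.PN

open Pool.Agent.TH396.IN

namespace Unit

variable {F : Type} [Field F]

theorem exp_nonneg {τ s a : ℝ} {i : ℤ} {j : ℕ} (h0 : 0 < τ) (h1 : τ < 1) (hs : 0 < s)
    (h : s * j + τ * i ≤ a ∧ s * j - (1 - τ) * i ≤ a) : 0 ≤ a := by
  have hj : (0 : ℝ) ≤ s * j := by positivity
  rcases le_total (0 : ℝ) i with hi | hi
  · have : 0 ≤ τ * (i : ℝ) := mul_nonneg h0.le hi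
    linarith [h.1]
  · have : 0 ≤ (1 - τ) * (-(i : ℝ)) := mul_nonneg (by linarith) (by linarith)
    nlinarith [h.2]

theorem exp_zero {τ s : ℝ} {i : ℤ} {j : ℕ} (h0 : 0 < τ) (h1 : τ < 1) (hs : 0 < s)
    (h : s * j + τ * i ≤ (0 : ℝ) ∧ s * j - (1 - τ) * i ≤ 0) : i = 0 ∧ j = 0 := by
  have hj : (0 : ℝ) ≤ s * j := by positivity
  have hi1 : (i : ℝ) ≤ 0 := by
    by_contra hc
    push Not at hc
    have : 0 < τ * (i : ℝ) := mul_pos h0 hc
    linarith [h.1]
  have hi2 : (0 : ℝ) ≤ i := by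
    by_contra hc
    push Not at hc
    have : 0 < (1 - τ) * (-(i : ℝ)) := mul_pos (by linarith) (by linarith)
    nlinarith [h.2]
  have hi : (i : ℝ) = 0 := le_antisymm hi1 hi2
  refine ⟨by exact_mod_cast hi, ?_⟩
  have h2 : s * j ≤ 0 := by
    have := h.1
    rw [hi, mul_zero, add_zero] at this
    exact this
  have h3 : (j : ℝ) ≤ 0 := by
    by_contra hc
    push Not at hc
    have : 0 < s * (j : ℝ) := mul_pos hs hc
    linarith
  have h4 : (j : ℝ) = 0 := le_antisymm h3 (Nat.cast_nonneg j)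
  exact_mod_cast h4

theorem coeff_neg {τ s : ℝ} (h0 : 0 < τ) (h1 : τ < 1) (hs : 0 < s) {c : HB F} (hc : InR τ s c)
    {a : ℝ} (ha : a < 0) : c.coeff a = 0 := by
  ext m
  by_contra h
  have h2 : co c a m.1 m.2 ≠ 0 := h
  exact absurd (exp_nonneg h0 h1 hs (hc a m.1 m.2 h2)) (not_le.2 ha)

theorem coeff_zero {τ s : ℝ} (h0 : 0 < τ) (h1 : τ < 1) (hs : 0 < s) {c : HB F}
    (hc : Root τ s c) : c.coeff 0 = 1 := by
  ext m
  obtain ⟨i, j⟩ := m
  by_cases hm : i = 0 ∧ j = 0
  · obtain ⟨rfl, rfl⟩ := hm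
    have h := hc.one
    unfold co at h
    rw [h, AddMonoidAlgebra.one_def, ← Prod.mk_zero_zero, AddMonoidAlgebra.coeff_single,
      Finsupp.single_eq_same]
  · have h : co c 0 i j = 0 := by
      by_contra h
      exact hm (exp_zero h0 h1 hs (hc.inR 0 i j h))
    unfold co at h
    rw [h, AddMonoidAlgebra.one_def]
    have hne : ((0 : ℤ × ℕ)) ≠ (i, j) := fun h => hm ⟨(congrArg Prod.fst h).symm,
      (congrArg Prod.snd h).symm⟩
    simp [AddMonoidAlgebra.coeff_single, hne]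

end Unit

theorem unit_root : S_unit := by
  intro F _ τ s h0 h1 hs c hc
  refine HahnSeries.isUnit_of_orderTop_pos ?_
  by_cases hz : c - 1 = 0
  · rw [hz, HahnSeries.orderTop_zero]
    exact WithTop.top_pos
  · rw [← HahnSeries.order_eq_orderTop_of_ne_zero hz]
    have h2 : (c - 1).coeff (c - 1).order ≠ 0 := fun h => hz (HahnSeries.coeff_order_eq_zero.1 h)
    have h3 : 0 < (c - 1).order := by
      by_contra hle
      push Not at hle
      apply h2
      rw [HahnSeries.coeff_sub, HahnSeries.coeff_one]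
      rcases hle.lt_or_eq with h | h
      · rw [Unit.coeff_neg h0 h1 hs hc.inR h, if_neg h.ne, sub_zero]
      · rw [h, Unit.coeff_zero h0 h1 hs hc, if_pos rfl, sub_self]
    exact_mod_cast h3

end Pool.Agent.TH380.PN
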