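import Pool.Agent.TH380.PN.Key3
import Pool.Agent.TH380.PN.Red
import Pool.Agent.TH380.PN.Root
import Pool.Agent.TH380.PN.Face
import Pool.Agent.TH380.PN.Ord
import Pool.Agent.TH380.PN.Exp
import Pool.Agent.TH380.PN.LeadT
import Pool.Agent.TH380.PN.Unit

/-! KEY3. -/

set_option autoImplicit false

namespace Pool.Agent.TH380.PN

open Pool.Agent.TH396.IN

/-- **KEY3** -/
theorem key3 {ι : Type} [Fintype ι] {P : Type} [AddCommMonoid P] {dg : P → ℕ} {σ c : ℝ}
    (h0 : 0 < σ) (h1 : σ < 1) (h : GoodT ι dg σ 9 3 c) : GoodS ι dg (3 * c) :=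
  key3' exists_root (leadT expansion (red exists_face ord)) unit_root h0 h1 h

end Pool.Agent.TH380.PN
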